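import Pool.Agent.K4H39.AJ.Group

/-!
# Homologically trivial cycles on abelian varieties and translations
-/

set_option autoImplicit false

open CategoryTheory AlgebraicGeometry

universe u v w

namespace Pool.Agent.K4H39.AJ

open Pool.Agent.H914 Pool.Agent.H914.VarClass Pool.Agent.H914.VarClass.Obj Pool.Agent.W492.BB
  Pool.Agent.W550.Corr Pool.Agent.TH133

variable {k : Type u} [Field k] {𝒱 : VarClass k} {C : TheoryData.{u, v, 0} 𝒱 ℚ} {K : Type w}
  [Field K] [hC : IsChowProj C] {H : WeilTheoryData.{u, v, w} C K} [hH : IsWeilProj H]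
  {P : 𝒱.Obj} {hP : Limits.IsTerminal P} {A X Y : 𝒱.Obj}

include hC

/-- The action of a correspondence on a rational point. -/
lemma act_point (hP : Limits.IsTerminal P) (Z : C.A (A.prod X)) (a : P ⟶ A) :
    C.act Z (C.push a 1) = C.pull (Obj.lift (cst hP X a) (𝟙 X)) Z := by
  have e1 : W492.BB.prodMap a (𝟙 X) ≫ snd A X = snd P X := by
    rw [W492.BB.prodMap_snd, Category.comp_id]
  have e2 : Obj.lift (hP.from X) (𝟙 X) ≫ snd P X = 𝟙 X := Obj.lift_snd _ _
  have e3 : snd P X ≫ Obj.lift (hP.from X) (𝟙 X) = 𝟙 (P.prod X) := by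
    apply prod_ext
    · exact hP.hom_ext _ _
    · rw [Category.assoc, Obj.lift_snd, Category.comp_id, Category.id_comp]
  have e4 : Obj.lift (hP.from X) (𝟙 X) ≫ W492.BB.prodMap a (𝟙 X) =
      Obj.lift (cst hP X a) (𝟙 X) := by
    apply prod_ext
    · rw [Category.assoc, W492.BB.prodMap_fst, ← Category.assoc, Obj.lift_fst, Obj.lift_fst, cst]
    · rw [Category.assoc, W492.BB.prodMap_snd, ← Category.assoc, Obj.lift_snd, Obj.lift_snd,
        Category.comp_id]
  have h1 : Z * C.push (W492.BB.prodMap a (𝟙 X)) 1 =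
      C.push (W492.BB.prodMap a (𝟙 X)) (C.pull (W492.BB.prodMap a (𝟙 X)) Z) := by
    rw [← C.proj_left, mul_one]
  rw [TheoryData.act_apply, C.base_fst, map_one, h1, ← C.push_comp, e1,
    ← pull_iso C (Obj.lift (hP.from X) (𝟙 X)) (snd P X) e2 e3, ← C.pull_comp, e4]

include hH

/-- All rational points have the same cohomology class. -/
lemma cl_point (hP0 : P.dim = 0) (a b : P ⟶ A) : H.cl (C.push a 1) = H.cl (C.push b 1) := by
  rw [← sub_eq_zero, H.cl_push, H.cl_push, map_one]
  apply H.nondeg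
  have key : (H.tr P ∘ₗ (H.pull a).toLinearMap) = H.tr P ∘ₗ (H.pull b).toLinearMap := by
    apply ext_gr H
    intro m x hx
    rw [LinearMap.comp_apply, LinearMap.comp_apply, AlgHom.toLinearMap_apply,
      AlgHom.toLinearMap_apply]
    by_cases hm : m = 0
    · subst hm
      obtain ⟨c, rfl⟩ := hH.gr_zero A x hx
      have e : ∀ f : P ⟶ A, H.pull f (c • (1 : H.A A)) = c • (1 : H.A P) := fun f => by
        rw [map_smul, map_one]
      rw [e a, e b]
    · rw [tr_zero H (H.pull_mem a hx) (by rw [hP0]; push_cast; simpa using hm),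
        tr_zero H (H.pull_mem b hx) (by rw [hP0]; push_cast; simpa using hm)]
  intro x
  have h1 := LinearMap.congr_fun key x
  rw [LinearMap.comp_apply, LinearMap.comp_apply, AlgHom.toLinearMap_apply,
    AlgHom.toLinearMap_apply] at h1
  rw [sub_mul, map_sub, ← H.proj_right, ← H.proj_right, H.tr_push, H.tr_push, one_mul, one_mul,
    h1, sub_self]

lemma point_hom0 (hP0 : P.dim = 0) (a b : P ⟶ A) :
    Hom0 H A.dim (C.push a 1 - C.push b 1) := by
  have h : ∀ a : P ⟶ A, C.push a 1 ∈ C.gr A A.dim := by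
    intro a
    have h1 := C.push_mem a (C.one_mem P)
    have e1 : (0 : ℤ) + 1 * ((A.dim : ℤ) - (P.dim : ℤ)) = A.dim := by
      rw [hP0]; push_cast; ring
    rwa [e1] at h1
  exact ⟨Submodule.sub_mem _ (h a) (h b), by rw [map_sub, cl_point hP0 a b, sub_self]⟩

omit hH in
/-- Translation by a point, minus the identity. -/
lemma translation_sub (G : GroupLaw hP A) (a : P ⟶ A) (z : C.A A) :
    C.act (C.pull G.add z) (C.push a 1 - C.push G.zero 1) = C.pull (G.tr a) z - z := by
  rw [act_map_sub, act_point hP, act_point hP, ← C.pull_comp, ← C.pull_comp, G.zero_add,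
    C.pull_id]
  rfl

omit hH in
/-- The correspondences from curves through Jacobians. -/
lemma act_pull (θ : X ⟶ Y) (W : C.A (X.prod A)) (D : C.A Y) :
    C.act W (C.pull θ D) = C.push (snd Y A) (C.pull (fst Y A) D *
      C.push (W492.BB.prodMap θ (𝟙 A)) W) := by
  have e1 : fst X A ≫ θ = W492.BB.prodMap θ (𝟙 A) ≫ fst Y A := (W492.BB.prodMap_fst _ _).symm
  have e2 : snd X A = W492.BB.prodMap θ (𝟙 A) ≫ snd Y A := by
    rw [W492.BB.prodMap_snd, Category.comp_id]
  rw [TheoryData.act_apply, ← C.pull_comp, e1, C.pull_comp, e2, C.push_comp, C.proj_right,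
    ch_comm C (C.push _ W)]

/-- Homologically trivial correspondences from curves to abelian varieties. -/
lemma curve_vanish (hQ : AbelianProperties H hP) {r : ℕ} (h : ProductsVanishOnAbelian hP H r)
    (G : GroupLaw hP A) {T : 𝒱.Obj} {c : C.A T} {i : ℤ} {W : C.A (T.prod A)} (hi : i + r = A.dim)
    (hT : T.dim = 1) (hc : Hom0 H 1 c) (hW : Hom0 H i W) : C.act W c = 0 := by
  obtain ⟨J, G', θ, D, hD, rfl⟩ := hQ.jacobian T c hT hc
  have h1 := h (J.prod A) (G'.prod G) (i + (J.dim - 1)) (C.pull (fst J A) D)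
    (C.push (W492.BB.prodMap θ (𝟙 A)) W) (by rw [dim_prod]; push_cast; rw [← hi]; ring)
    ⟨C.pull_mem _ hD.1, by rw [H.cl_pull, hD.2, map_zero]⟩
    ⟨by
      have h2 := C.push_mem (W492.BB.prodMap θ (𝟙 A)) hW.1
      have e1 : i + 1 * (((J.prod A).dim : ℤ) - ((T.prod A).dim : ℤ)) = i + (J.dim - 1) := by
        rw [dim_prod, dim_prod, hT]; push_cast; ring
      rwa [e1] at h2, by rw [H.cl_push, hW.2, map_zero]⟩
  rw [act_pull, h1, map_zero]

theorem products_imp_translation (hP0 : P.dim = 0) (hR : CurveProperties H)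
    (hQ : AbelianProperties H hP) {r : ℕ} (h : ProductsVanishOnAbelian hP H r) :
    TranslationInvariant hP H r := by
  intro A G i z hi hz a
  rw [← sub_eq_zero, ← translation_sub G]
  obtain ⟨T, α, c, hT, hc, hα, hac⟩ := hR.zeroCycle A _ (point_hom0 (H := H) hP0 a G.zero)
  have hdim : (T.dim : ℤ) = 1 := by exact_mod_cast hT
  rw [hac, ← C.act_comp]
  refine curve_vanish hQ h G hi hT hc ⟨?_, cl_comp_zero_right (by
    rw [H.cl_pull, hz.2, map_zero])⟩
  have := comp_mem C (e := A.dim - 1) (e' := i - A.dim) (Γ := α) (Δ := C.pull G.add z)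
    (by rw [hdim, show (1 : ℤ) + (A.dim - 1) = A.dim by ring]; exact hα)
    (by rw [show (A.dim : ℤ) + (i - A.dim) = i by ring]; exact C.pull_mem _ hz.1)
  rw [hdim, show (1 : ℤ) + (A.dim - 1 + (i - A.dim)) = i by ring] at this
  exact this

omit hH in
theorem translation_imp_products (hQ : AbelianProperties H hP) {r : ℕ}
    (h : TranslationInvariant hP H r) (h' : TranslationInvariant hP H (r + 1)) :
    ProductsVanishOnAbelian hP H r := by
  intro A G i D Γ hi hD hΓ
  obtain ⟨a, L, hL, rfl⟩ := hQ.divisor A G D hD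
  have h1 := h' A G i Γ (by push_cast; rw [← hi]; ring) hΓ a
  have h2 := h A G (1 + i) (L * Γ) (by rw [← hi]; ring)
    ⟨C.mul_mem hL hΓ.1, by rw [map_mul, hΓ.2, mul_zero]⟩ a
  rw [map_mul, h1] at h2
  rw [sub_mul, h2, sub_self]

theorem inj_iff_products {M : AJData H} (hM : M.IsAJ) (hR : CurveProperties H)
    (hQ : AbelianProperties H hP) (r : ℕ) :
    InjectiveOnAbelian hP M r ↔ ProductsVanishOnAbelian hP H r := by
  constructor
  · intro h A G i D Γ hi hD hΓ
    obtain ⟨T, lam, c, hT, hc, hl, rfl⟩ := hR.divisor A D hD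
    have h1 : DoublyTrivial H (1 + i) (C.act lam c * Γ) := by
      refine ⟨T, lam * C.pull (snd T A) Γ, c, hT, hc,
        ⟨C.mul_mem hl (C.pull_mem _ hΓ.1), ?_⟩, ?_⟩
      · rw [map_mul, H.cl_pull, hΓ.2, map_zero, mul_zero]
      · rw [TheoryData.act_apply, TheoryData.act_apply, ← C.proj_right, mul_assoc, mul_assoc,
          ch_comm C (C.pull (snd T A) Γ)]
    exact h A G (1 + i) _ (by rw [← hi]; ring) h1.algTrivial
      ((kernel_iff hM.isKernel hR h1.algTrivial).2 h1)
  · intro h A G i z hi hz hNz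
    obtain ⟨T, W, c, hT, hc, hW, rfl⟩ := (kernel_iff hM.isKernel hR hz).1 hNz
    exact curve_vanish hQ h G hi hT hc hW

/-- **Abelian varieties.** -/
theorem abelian_tfae (hP0 : P.dim = 0) {M : AJData H} (hM : M.IsAJ) (hR : CurveProperties H)
    (hQ : AbelianProperties H hP) (s : ℕ) :
    List.TFAE [∀ r ≥ s, InjectiveOnAbelian hP M r, ∀ r ≥ s, ProductsVanishOnAbelian hP H r,
      ∀ r ≥ s, TranslationInvariant hP H r] := by
  tfae_have 1 ↔ 2 := forall_congr' fun r => forall_congr' fun _ => inj_iff_products hM hR hQ r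
  tfae_have 2 → 3 := fun h r hr => products_imp_translation hP0 hR hQ (h r hr)
  tfae_have 3 → 2 := fun h r hr =>
    translation_imp_products hQ (h r hr) (h (r + 1) (le_trans hr (Nat.le_succ r)))
  tfae_finish

end Pool.Agent.K4H39.AJ
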