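import Pool.Agent.K4H39.AJ.Main

/-!
# The kernel of the p-adic Abel-Jacobi map
-/

set_option autoImplicit false

open CategoryTheory AlgebraicGeometry

universe u v w

namespace Pool.Agent.K4H39.AJ

open Pool.Agent.H914 Pool.Agent.H914.VarClass Pool.Agent.H914.VarClass.Obj Pool.Agent.W492.BB
  Pool.Agent.W550.Corr Pool.Agent.TH133

variable {k : Type u} [Field k] {𝒱 : VarClass k} {C : TheoryData.{u, v, 0} 𝒱 ℚ} {K : Type w}
  [Field K] [hC : IsChowProj C] {H : WeilTheoryData.{u, v, w} C K} [hH : IsWeilProj H]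
  {A : AJData H} {X Y : 𝒱.Obj}

include hC hH

lemma actH_deg {e m : ℤ} {Γ : C.A (X.prod Y)} (hΓ : C.Deg (X.dim + e) Γ) {a : H.A X}
    (ha : H.Deg m a) : H.Deg (m + 2 * e) (H.act (H.cl Γ) a) := by
  exact actH_mem H hΓ ha

lemma actH_sub_dg {e : C.A (X.prod X)} (a : H.A X) :
    H.act (H.cl (dg C X - e)) a = a - H.act (H.cl e) a := by
  rw [map_sub, TheoryData.act_sub, actH_dg]

/-- An operator which is injective modulo the kernel is injective on cohomology classes, if the
representations are pure of weight `-1`. -/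
lemma boundary_of_injective (hA : A.IsRep) {i j : ℤ} {Γ : C.A (X.prod Y)} {e : C.A (X.prod X)}
    (hΓ : C.Deg (X.dim + (j - i)) Γ) (he : C.Deg X.dim e)
    (hinj : ∀ a, H.Deg (2 * i - 1) a → H.act (H.cl Γ) a = 0 → H.act (H.cl e) a = a)
    {x : Gal k → H.A X} (hx : ∀ g, H.Deg (2 * i - 1) (x g))
    (hb : A.IsBoundary Y j (fun g => H.act (H.cl Γ) (x g))) :
    A.IsBoundary X i (fun g => x g - H.act (H.cl e) (x g)) := by
  obtain ⟨w, hw, hwg0⟩ := hb
  have hwg : ∀ g, H.act (H.cl Γ) (x g) = A.ρ Y j g w - w := hwg0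
  have hact : ∀ (X Y : 𝒱.Obj) (i j : ℤ) (Γ : C.A (X.prod Y)), C.Deg (X.dim + (j - i)) Γ →
    ∀ (g : Gal k) (a : H.A X), H.act (H.cl Γ) (A.ρ X i g a) = A.ρ Y j g (H.act (H.cl Γ) a) :=
    hA.equivariant
  -- the image of `Γ_*`
  set U : Submodule K (H.A Y) := (H.gr X (2 * i - 1)).map (H.actL (H.cl Γ)) with hU
  have hUle : U ≤ H.gr Y (2 * j - 1) := by
    rintro _ ⟨a, ha, rfl⟩
    have := actH_deg (H := H) hΓ ha
    have e1 : (2 * i - 1 : ℤ) + 2 * (j - i) = 2 * j - 1 := by ring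
    rw [e1] at this
    exact this
  have hUst : ∀ g, ∀ a ∈ U, A.ρ Y j g a ∈ U := by
    rintro g _ ⟨a, ha, rfl⟩
    refine ⟨A.ρ X i g a, hA.isAction.mem X i _ g a ha, ?_⟩
    exact hact X Y i j Γ hΓ g a
  have hwU : w ∈ U := by
    refine hA.isPure Y j U hUle hUst w hw (fun g => ?_)
    change A.ρ Y j g w - w ∈ U
    rw [← hwg g]
    exact ⟨x g, hx g, rfl⟩
  obtain ⟨v, hv, hvw⟩ := hwU
  have hvw' : H.act (H.cl Γ) v = w := hvw
  refine ⟨v - H.act (H.cl e) v, ?_, fun g => ?_⟩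
  · have h1 := actH_deg (H := H) (e := 0) (by rwa [add_zero]) hv (Γ := e)
    rw [mul_zero, add_zero] at h1
    exact Submodule.sub_mem _ hv h1
  · -- `x g - (g v - v)` is in the kernel of `Γ_*`
    have h1 : H.act (H.cl Γ) (x g - (A.ρ X i g v - v)) = 0 := by
      rw [act_map_sub, act_map_sub, hwg g, hact X Y i j Γ hΓ g v, hvw', sub_self]
    have h2 := hinj _ (Submodule.sub_mem _ (hx g)
      (Submodule.sub_mem _ (hA.isAction.mem X i _ g v hv) hv)) h1
    have h3 : H.act (H.cl e) (A.ρ X i g v) = A.ρ X i g (H.act (H.cl e) v) :=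
      hact X X i i e (by rwa [sub_self, add_zero]) g v
    change H.act (H.cl e) (x g - (A.ρ X i g v - v)) = x g - (A.ρ X i g v - v) at h2
    rw [act_map_sub, act_map_sub, h3] at h2
    change x g - H.act (H.cl e) (x g) = A.ρ X i g (v - H.act (H.cl e) v) - _
    rw [map_sub]
    have h4 : H.act (H.cl e) (x g) = A.ρ X i g (H.act (H.cl e) v) - H.act (H.cl e) v +
        (x g - (A.ρ X i g v - v)) := by
      rw [← h2]; abel
    rw [h4]
    abel

omit hC hH in
lemma AJData.IsBoundary.add {i : ℤ} {x y : Gal k → H.A X} (hx : A.IsBoundary X i x)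
    (hy : A.IsBoundary X i y) : A.IsBoundary X i (fun g => x g + y g) := by
  obtain ⟨v, hv, hvg⟩ := hx
  obtain ⟨w, hw, hwg⟩ := hy
  refine ⟨v + w, Submodule.add_mem _ hv hw, fun g => ?_⟩
  change x g + y g = A.ρ X i g (v + w) - _
  rw [hvg, hwg, map_add, AJData.bd, AJData.bd, AJData.tw, AJData.tw]
  abel

omit hC hH in
lemma AJData.IsBoundary.sub {i : ℤ} {x y : Gal k → H.A X} (hx : A.IsBoundary X i x)
    (hy : A.IsBoundary X i y) : A.IsBoundary X i (fun g => x g - y g) := by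
  obtain ⟨v, hv, hvg⟩ := hx
  obtain ⟨w, hw, hwg⟩ := hy
  refine ⟨v - w, Submodule.sub_mem _ hv hw, fun g => ?_⟩
  change x g - y g = A.ρ X i g (v - w) - _
  rw [hvg, hwg, map_sub, AJData.bd, AJData.bd, AJData.tw, AJData.tw]
  abel

/-- The kernel of the p-adic Abel-Jacobi map has the properties `IsKernel`. -/
theorem AJData.IsAJ.isKernel (hA : A.IsAJ) : IsKernel H (fun X i z => A.IsZero X i z) where
  hom := by
    intro X Y i j Γ z hΓ hΓ0 hz
    obtain ⟨v, hv, hvg⟩ := hA.act X Y i j Γ z hΓ hz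
    refine ⟨v, hv, fun g => ?_⟩
    rw [← hvg g]
    change _ = _ - H.act (H.cl Γ) _
    rw [hΓ0, TheoryData.act_zero, sub_zero]
  divisor := fun hD h => hA.divisor _ _ hD h
  inj := by
    intro X Y i j Γ e z hΓ he hz hinj h
    have h1 : A.IsBoundary Y j (fun g => H.act (H.cl Γ) (A.aj X i z g)) := by
      have := AJData.IsBoundary.sub h (hA.act X Y i j Γ z hΓ hz)
      refine (congrArg (A.IsBoundary Y j) (funext fun g => ?_)).mp this
      rw [on]
      abel
    have h2 := boundary_of_injective hA.isRep hΓ he hinj (hA.isCocycle.mem X i z hz) h1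
    have hdeg : C.Deg (X.dim + (i - i)) (dg C X - e) := by
      rw [sub_self, add_zero]
      exact Submodule.sub_mem _ (dg_mem C X) he
    have h3 := hA.act X X i i (dg C X - e) z hdeg hz
    have h4 := AJData.IsBoundary.add h3 h2
    have e1 : C.act (dg C X - e) z = z - C.act e z := by
      rw [TheoryData.act_sub, act_dg]
    rw [e1] at h4
    refine (congrArg (A.IsBoundary X i) (funext fun g => ?_)).mp h4
    rw [on, actH_sub_dg]
    abel

end Pool.Agent.K4H39.AJ
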