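import Mathlib

/-!
# Linear algebra of Hodge structures of weight `-1`
-/

set_option autoImplicit false

open TensorProduct

universe v

namespace Pool.Agent.K4H39.AJ

section defs

variable (V : Type v) [AddCommGroup V] [Module ℚ V]

/-- The complexification. -/
abbrev Cx : Type v := ℂ ⊗[ℚ] V

variable {V}

/-- The complex conjugation on the complexification of a rational vector space. -/
noncomputable def cj : Cx V →ₗ[ℚ] Cx V :=
  LinearMap.rTensor V (Complex.conjAe.toLinearMap.restrictScalars ℚ)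

/-- The inclusion of a rational vector space in its complexification. -/
noncomputable def rat (a : V) : Cx V := (1 : ℂ) ⊗ₜ[ℚ] a

/-- The element `x` of the complexification is in `F + V`. -/
def InFPlusRational (F : Submodule ℂ (Cx V)) (x : Cx V) : Prop :=
  ∃ f ∈ F, ∃ a : V, x = f + rat a

/-- The complexification of `V` is the direct sum of `F` and its complex conjugate. -/
def IsHodge (F : Submodule ℂ (Cx V)) : Prop :=
  (∀ x ∈ F, cj x ∈ F → x = 0) ∧ ∀ x : Cx V, ∃ a ∈ F, ∃ b ∈ F, x = a + cj b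

end defs

variable {V W : Type v} [AddCommGroup V] [Module ℚ V] [AddCommGroup W] [Module ℚ W]

lemma cj_tmul (c : ℂ) (a : V) : cj (c ⊗ₜ[ℚ] a) = (starRingEnd ℂ c) ⊗ₜ[ℚ] a := rfl

lemma cj_cj (x : Cx V) : cj (cj x) = x := by
  induction x using TensorProduct.induction_on with
  | zero => rw [map_zero, map_zero]
  | tmul c a => rw [cj_tmul, cj_tmul, Complex.conj_conj]
  | add x y hx hy => rw [map_add, map_add, hx, hy]

lemma cj_rat (a : V) : cj (rat a) = rat a := by
  rw [rat, cj_tmul, map_one]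

lemma cj_baseChange (φ : V →ₗ[ℚ] W) (x : Cx V) : cj (φ.baseChange ℂ x) = φ.baseChange ℂ (cj x) := by
  induction x using TensorProduct.induction_on with
  | zero => simp
  | tmul c a => rw [LinearMap.baseChange_tmul, cj_tmul, cj_tmul, LinearMap.baseChange_tmul]
  | add x y hx hy => rw [map_add, map_add, map_add, map_add, hx, hy]

lemma rat_injective {a : V} (h : (rat a : Cx V) = 0) : a = 0 := by
  exact (Module.FaithfullyFlat.one_tmul_eq_zero_iff (R := ℚ) (M := V) (A := ℂ) a).1 h

/-- The kernel of the complexification. -/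
lemma fix_of_ker (φ : V →ₗ[ℚ] W) (ε : V →ₗ[ℚ] V) (h : ∀ a, φ a = 0 → ε a = a) (x : Cx V)
    (hx : φ.baseChange ℂ x = 0) : ε.baseChange ℂ x = x := by
  obtain ⟨ψ, hψ⟩ : ∃ ψ : W →ₗ[ℚ] V, ∀ a, φ (ψ (φ a)) = φ a := by
    obtain ⟨g, hg⟩ := (φ.rangeRestrict).exists_rightInverse_of_surjective
      (LinearMap.range_rangeRestrict φ)
    obtain ⟨p, hp⟩ := (LinearMap.range φ).subtype.exists_leftInverse_of_injective
      (Submodule.ker_subtype _)
    refine ⟨g ∘ₗ p, fun a => ?_⟩
    have h1 : p (φ a) = ⟨φ a, LinearMap.mem_range_self φ a⟩ :=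
      LinearMap.congr_fun hp ⟨φ a, LinearMap.mem_range_self φ a⟩
    have h2 := LinearMap.congr_fun hg ⟨φ a, LinearMap.mem_range_self φ a⟩
    rw [LinearMap.comp_apply, h1]
    exact congrArg Subtype.val h2
  -- `a - ψ φ a` is in the kernel
  have h1 : ε ∘ₗ (LinearMap.id - ψ ∘ₗ φ) = LinearMap.id - ψ ∘ₗ φ := by
    apply LinearMap.ext
    intro a
    apply h
    rw [LinearMap.sub_apply, LinearMap.id_apply, LinearMap.comp_apply, map_sub, hψ, sub_self]
  have h2 : (LinearMap.id - ψ ∘ₗ φ).baseChange ℂ x = x := by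
    rw [LinearMap.baseChange_sub, LinearMap.baseChange_id, LinearMap.baseChange_comp,
      LinearMap.sub_apply, LinearMap.id_apply, LinearMap.comp_apply, hx, map_zero, sub_zero]
  have h3 : (ε ∘ₗ (LinearMap.id - ψ ∘ₗ φ)).baseChange ℂ x =
      (LinearMap.id - ψ ∘ₗ φ).baseChange ℂ x := by rw [h1]
  rw [LinearMap.baseChange_comp, LinearMap.comp_apply, h2] at h3
  exact h3

/-- A rational vector in the complexified image is in the image. -/
lemma exists_rat (φ : V →ₗ[ℚ] W) (w : W) (x : Cx V) (h : φ.baseChange ℂ x = rat w) :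
    ∃ v, φ v = w := by
  obtain ⟨p, hp⟩ := (LinearMap.range φ).subtype.exists_leftInverse_of_injective
      (Submodule.ker_subtype _)
  set π : W →ₗ[ℚ] W := LinearMap.id - (LinearMap.range φ).subtype ∘ₗ p with hπ
  have h1 : π ∘ₗ φ = 0 := by
    apply LinearMap.ext
    intro a
    have h1 : p (φ a) = ⟨φ a, LinearMap.mem_range_self φ a⟩ :=
      LinearMap.congr_fun hp ⟨φ a, LinearMap.mem_range_self φ a⟩
    rw [LinearMap.comp_apply, hπ, LinearMap.sub_apply, LinearMap.comp_apply, h1,
      LinearMap.id_apply, Submodule.subtype_apply, sub_self, LinearMap.zero_apply]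
  have h2 : π.baseChange ℂ (rat w) = 0 := by
    rw [← h, ← LinearMap.comp_apply, ← LinearMap.baseChange_comp, h1, LinearMap.baseChange_zero,
      LinearMap.zero_apply]
  have h3 : π w = 0 := by
    apply rat_injective
    rw [← h2, rat, rat, LinearMap.baseChange_tmul]
  rw [hπ, LinearMap.sub_apply, sub_eq_zero] at h3
  have h4 : w ∈ LinearMap.range φ := by
    rw [show w = (LinearMap.id : W →ₗ[ℚ] W) w from rfl, h3]
    exact (p w).2
  exact h4

/-- Injectivity modulo a kernel passes to the intermediate Jacobians. -/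
theorem inFPlusRational_of_injective {FV : Submodule ℂ (Cx V)} {FW : Submodule ℂ (Cx W)}
    (hV : IsHodge FV) (hW : IsHodge FW) (φ : V →ₗ[ℚ] W) (ε : V →ₗ[ℚ] V)
    (hφ : ∀ x ∈ FV, φ.baseChange ℂ x ∈ FW) (hε : ∀ x ∈ FV, ε.baseChange ℂ x ∈ FV)
    (hker : ∀ a, φ a = 0 → ε a = a) {x : Cx V}
    (hx : InFPlusRational FW (φ.baseChange ℂ x)) :
    InFPlusRational FV (x - ε.baseChange ℂ x) := by
  obtain ⟨f, hf, v, hfv⟩ := hx
  obtain ⟨p, hp, q, hq, hpq⟩ := hV.2 (x - cj x)
  -- `f = φ p`
  have h1 : f - φ.baseChange ℂ p = cj f + φ.baseChange ℂ (cj q) := by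
    have e1 : φ.baseChange ℂ (cj x) = cj f + rat v := by
      rw [← cj_baseChange, hfv, map_add, cj_rat]
    have e2 : φ.baseChange ℂ (x - cj x) = φ.baseChange ℂ p + φ.baseChange ℂ (cj q) := by
      rw [hpq, map_add]
    rw [map_sub, hfv, e1] at e2
    have e3 : f - cj f = φ.baseChange ℂ p + φ.baseChange ℂ (cj q) := by
      rw [← e2]; abel
    rw [sub_eq_iff_eq_add]
    rw [sub_eq_iff_eq_add] at e3
    exact e3.trans (by abel)
  have h2 : f = φ.baseChange ℂ p := by
    rw [← sub_eq_zero]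
    apply hW.1 _ (Submodule.sub_mem _ hf (hφ p hp))
    rw [h1, map_add, cj_cj, ← cj_baseChange, cj_cj]
    exact Submodule.add_mem _ hf (hφ q hq)
  obtain ⟨u, hu⟩ := exists_rat φ v (x - p) (by
    rw [map_sub, hfv, h2]; abel)
  have h3 : φ.baseChange ℂ (x - p - rat u) = 0 := by
    have e5 : φ.baseChange ℂ (rat u) = rat v := by
      rw [rat, LinearMap.baseChange_tmul, hu]; rfl
    rw [map_sub, map_sub, hfv, h2, e5]
    abel
  have h4 := fix_of_ker φ ε hker _ h3
  refine ⟨p - ε.baseChange ℂ p, Submodule.sub_mem _ hp (hε p hp), u - ε u, ?_⟩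
  have h5 : ε.baseChange ℂ (rat u) = rat (ε u) := by
    rw [rat, LinearMap.baseChange_tmul]; rfl
  have h6 : (rat (u - ε u) : Cx V) = rat u - rat (ε u) := by
    rw [rat, rat, rat, TensorProduct.tmul_sub]
  rw [map_sub, map_sub, h5] at h4
  rw [h6]
  have h7 : ε.baseChange ℂ x = (x - p - rat u) + ε.baseChange ℂ p + rat (ε u) := by
    rw [← h4]; abel
  rw [h7]
  abel

end Pool.Agent.K4H39.AJ
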