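import Pool.Agent.K4H39.AJ.HodgeDefs
import Pool.Agent.K4H39.AJ.HodgeAlg
import Pool.Agent.K4H39.AJ.Galois

/-!
# The kernel of the complex Abel-Jacobi map
-/

set_option autoImplicit false

open CategoryTheory AlgebraicGeometry TensorProduct

universe u v w

namespace Pool.Agent.K4H39.AJ

open Pool.Agent.H914 Pool.Agent.H914.VarClass Pool.Agent.H914.VarClass.Obj Pool.Agent.W492.BB
  Pool.Agent.W550.Corr Pool.Agent.TH133

lemma InFPlusRational.add {V : Type v} [AddCommGroup V] [Module ℚ V] {F : Submodule ℂ (Cx V)}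
    {x y : Cx V} (hx : InFPlusRational F x) (hy : InFPlusRational F y) :
    InFPlusRational F (x + y) := by
  obtain ⟨f, hf, a, rfl⟩ := hx
  obtain ⟨g, hg, b, rfl⟩ := hy
  refine ⟨f + g, Submodule.add_mem _ hf hg, a + b, ?_⟩
  have : (rat (a + b) : Cx V) = rat a + rat b := TensorProduct.tmul_add _ _ _
  rw [this]
  abel

lemma InFPlusRational.neg {V : Type v} [AddCommGroup V] [Module ℚ V] {F : Submodule ℂ (Cx V)}
    {x : Cx V} (hx : InFPlusRational F x) : InFPlusRational F (-x) := by
  obtain ⟨f, hf, a, rfl⟩ := hx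
  refine ⟨-f, Submodule.neg_mem _ hf, -a, ?_⟩
  have : (rat (-a) : Cx V) = -rat a := TensorProduct.tmul_neg _ _
  rw [this]
  abel

variable {k : Type u} [Field k] {𝒱 : VarClass k} {C : TheoryData.{u, v, 0} 𝒱 ℚ}
  [hC : IsChowProj C] {H : WeilTheoryData.{u, v, 0} C ℚ} [hH : IsWeilProj H]
  {A : HodgeAJ H} {X Y : 𝒱.Obj}

include hC hH

/-- The map on odd cohomology induced by a correspondence. -/
lemma exists_induced {i j : ℤ} {Γ : C.A (X.prod Y)} (hΓ : C.Deg (X.dim + (j - i)) Γ) :
    ∃ φ : Odd H X i →ₗ[ℚ] Odd H Y j, Induces H i j Γ φ := by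
  have h : ∀ a ∈ H.gr X (2 * i - 1), H.actL (H.cl Γ) a ∈ H.gr Y (2 * j - 1) := by
    intro a ha
    have := actH_deg (H := H) hΓ ha
    have e1 : (2 * i - 1 : ℤ) + 2 * (j - i) = 2 * j - 1 := by ring
    rw [e1] at this
    exact this
  exact ⟨(H.actL (H.cl Γ)).restrict h, hΓ, fun a => rfl⟩

/-- The kernel of the complex Abel-Jacobi map has the properties `IsKernel`. -/
theorem HodgeAJ.IsAJ.isKernel (hA : A.IsAJ) : IsKernel H (fun X i z => A.IsZero X i z) where
  hom := by
    intro X Y i j Γ z hΓ hΓ0 hz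
    obtain ⟨φ, hφ⟩ := exists_induced (H := H) hΓ
    set x : Cx (Odd H X i) := A.aj X i z with hx
    set y : Cx (Odd H Y j) := A.aj Y j (C.act Γ z) with hy
    have h1 : InFPlusRational (V := Odd H Y j) (A.F Y j) (y - φ.baseChange ℂ x) :=
      hA.act X Y i j Γ φ z hφ hz
    have h2 : φ = 0 := by
      apply LinearMap.ext
      intro a
      apply Subtype.ext
      have h3 : (φ a).cls = on H Γ a.cls := hφ.2 a
      rw [on, hΓ0, TheoryData.act_zero] at h3
      exact h3
    rw [h2, LinearMap.baseChange_zero, LinearMap.zero_apply, sub_zero] at h1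
    exact h1
  divisor := fun hD h => hA.divisor _ _ hD h
  inj := by
    intro X Y i j Γ e z hΓ he hz hinj h
    obtain ⟨φ, hφ⟩ := exists_induced (H := H) hΓ
    have he' : C.Deg (X.dim + (i - i)) e := by rwa [sub_self, add_zero]
    obtain ⟨ε, hε⟩ := exists_induced (H := H) he'
    set x : Cx (Odd H X i) := A.aj X i z with hx
    set y : Cx (Odd H Y j) := A.aj Y j (C.act Γ z) with hy
    have h1 : InFPlusRational (V := Odd H Y j) (A.F Y j) (φ.baseChange ℂ x) := by
      have h2 : InFPlusRational (V := Odd H Y j) (A.F Y j) y := h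
      have h3 : InFPlusRational (V := Odd H Y j) (A.F Y j) (y - φ.baseChange ℂ x) :=
        hA.act X Y i j Γ φ z hφ hz
      have h4 := h2.add h3.neg
      rwa [neg_sub, add_sub_cancel] at h4
    have h2 := inFPlusRational_of_injective (V := Odd H X i) (W := Odd H Y j)
      (FV := A.F X i) (FW := A.F Y j) (hA.hodge X i)
      (hA.hodge Y j) φ ε (hA.preservesF X Y i j Γ φ hφ)
      (hA.preservesF X X i i e ε hε) (by
        intro a ha
        apply Subtype.ext
        have h3 : (ε a).cls = on H e a.cls := hε.2 a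
        have h4 : (φ a).cls = on H Γ a.cls := hφ.2 a
        rw [ha] at h4
        exact h3.trans (hinj a.cls a.2 h4.symm)) h1
    have hdeg : C.Deg (X.dim + (i - i)) (dg C X - e) := by
      rw [sub_self, add_zero]
      exact Submodule.sub_mem _ (dg_mem C X) he
    have hind : Induces H i i (dg C X - e) (LinearMap.id - ε) := by
      refine ⟨hdeg, fun a => ?_⟩
      have h3 : (ε a).cls = on H e a.cls := hε.2 a
      have h4 : ((LinearMap.id - ε : Odd H X i →ₗ[ℚ] Odd H X i) a).cls = a.cls - (ε a).cls := rfl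
      rw [h4, h3, on, on, actH_sub_dg]
    have e1 : C.act (dg C X - e) z = z - C.act e z := by
      rw [TheoryData.act_sub, act_dg]
    have h3' := hA.act X X i i (dg C X - e) _ z hind hz
    rw [e1] at h3'
    set y' : Cx (Odd H X i) := A.aj X i (z - C.act e z) with hy'
    have h3 : InFPlusRational (V := Odd H X i) (A.F X i)
        (y' - (LinearMap.id - ε).baseChange ℂ x) := h3'
    rw [LinearMap.baseChange_sub, LinearMap.baseChange_id, LinearMap.sub_apply,
      LinearMap.id_apply] at h3
    have h4 := h3.add h2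
    rw [sub_add_cancel] at h4
    exact h4

end Pool.Agent.K4H39.AJ
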