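import Pool.Agent.K4H39.AJ.AbelianHDefs
import Pool.Agent.K4H39.AJ.Abelian
import Pool.Agent.K4H39.AJ.Hodge

/-!
# The complex Abel-Jacobi map on abelian varieties
-/

set_option autoImplicit false

open CategoryTheory AlgebraicGeometry

universe u v w

namespace Pool.Agent.K4H39.AJ

open Pool.Agent.H914 Pool.Agent.H914.VarClass Pool.Agent.H914.VarClass.Obj Pool.Agent.W492.BB
  Pool.Agent.W550.Corr Pool.Agent.TH133

variable {k : Type u} [Field k] {𝒱 : VarClass k} {C : TheoryData.{u, v, 0} 𝒱 ℚ} {K : Type w}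
  [Field K] [hC : IsChowProj C] {H : WeilTheoryData.{u, v, w} C K} [hH : IsWeilProj H]
  {N : ∀ X : 𝒱.Obj, ℤ → C.A X → Prop} {P : 𝒱.Obj} {hP : Limits.IsTerminal P} {A X Y : 𝒱.Obj}

include hC hH

theorem inj_iff_productsN (hN : IsKernel H N) (hR : CurveProperties H)
    (hQ : AbelianProperties H hP) (r : ℕ) :
    (∀ (A : 𝒱.Obj) (_ : GroupLaw hP A) (i : ℤ) (z : C.A A), i + r = A.dim → AlgTrivial H i z →
      N A i z → z = 0) ↔ ProductsVanishOnAbelian hP H r := by
  constructor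
  · intro h A G i D Γ hi hD hΓ
    obtain ⟨T, lam, c, hT, hc, hl, rfl⟩ := hR.divisor A D hD
    have h1 : DoublyTrivial H (1 + i) (C.act lam c * Γ) := by
      refine ⟨T, lam * C.pull (snd T A) Γ, c, hT, hc,
        ⟨C.mul_mem hl (C.pull_mem _ hΓ.1), ?_⟩, ?_⟩
      · rw [map_mul, H.cl_pull, hΓ.2, map_zero, mul_zero]
      · rw [TheoryData.act_apply, TheoryData.act_apply, ← C.proj_right, mul_assoc, mul_assoc,
          ch_comm C (C.pull (snd T A) Γ)]
    exact h A G (1 + i) _ (by rw [← hi]; ring) h1.algTrivial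
      ((kernel_iff hN hR h1.algTrivial).2 h1)
  · intro h A G i z hi hz hNz
    obtain ⟨T, W, c, hT, hc, hW, rfl⟩ := (kernel_iff hN hR hz).1 hNz
    exact curve_vanish hQ h G hi hT hc hW

/-- **Abelian varieties.** -/
theorem abelian_tfaeN (hP0 : P.dim = 0) (hN : IsKernel H N) (hR : CurveProperties H)
    (hQ : AbelianProperties H hP) (s : ℕ) :
    List.TFAE [∀ r ≥ s, ∀ (A : 𝒱.Obj) (_ : GroupLaw hP A) (i : ℤ) (z : C.A A), i + r = A.dim →
      AlgTrivial H i z → N A i z → z = 0, ∀ r ≥ s, ProductsVanishOnAbelian hP H r,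
      ∀ r ≥ s, TranslationInvariant hP H r] := by
  tfae_have 1 ↔ 2 := forall_congr' fun r => forall_congr' fun _ => inj_iff_productsN hN hR hQ r
  tfae_have 2 → 3 := fun h r hr => products_imp_translation hP0 hR hQ (h r hr)
  tfae_have 3 → 2 := fun h r hr =>
    translation_imp_products hQ (h r hr) (h (r + 1) (le_trans hr (Nat.le_succ r)))
  tfae_finish

theorem abelianZero_iff (hR : CurveProperties H) :
    (∀ (A : 𝒱.Obj) (_ : GroupLaw hP A) (z : C.A A), Hom0 H A.dim z → N A A.dim z → z = 0) ↔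
      ∀ (A : 𝒱.Obj) (_ : GroupLaw hP A) (i : ℤ) (z : C.A A), i + (0 : ℕ) = A.dim →
        AlgTrivial H i z → N A i z → z = 0 := by
  constructor
  · intro h X G i z hi hz hNz
    have hi' : i = X.dim := by rw [← hi]; push_cast; ring
    subst hi'
    obtain ⟨T, Γ, c, hT, hc, hΓ, rfl⟩ := hz
    have hdim : (T.dim : ℤ) = 1 := by exact_mod_cast hT
    refine h X G _ ⟨?_, ?_⟩ hNz
    · have := act_mem' C (e := X.dim - 1) (i := 1) (Γ := Γ) (by
        rw [hdim, show (1 : ℤ) + (X.dim - 1) = X.dim by ring]; exact hΓ) hc.1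
      rwa [show (1 : ℤ) + (X.dim - 1) = X.dim by ring] at this
    · rw [cl_act, hc.2, TheoryData.act_map_zero]
  · intro h X G z hz hNz
    exact h X G X.dim z (by push_cast; ring) (hR.zeroCycle X z hz) hNz

end Pool.Agent.K4H39.AJ
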