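import Mathlib

/-!
# Complexification and Hodge structures of weight `-1`: definitions
-/

set_option autoImplicit false

open TensorProduct

universe v

namespace Pool.Agent.K4H39.AJ

section defs

variable (V : Type v) [AddCommGroup V] [Module ℚ V]

/-- The complexification `ℂ ⊗ V` of a rational vector space. -/
def Cplx : Type v := ℂ ⊗[ℚ] V

noncomputable instance : AddCommGroup (Cplx V) :=
  @TensorProduct.addCommGroup ℚ _ ℂ V _ _ _ _

noncomputable instance : Module ℂ (Cplx V) :=
  (TensorProduct.leftModule : Module ℂ (ℂ ⊗[ℚ] V))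

variable {V} {W : Type v} [AddCommGroup W] [Module ℚ W]

/-- The complex conjugation on the complexification. -/
noncomputable def Cplx.conj (x : Cplx V) : Cplx V :=
  LinearMap.rTensor V (Complex.conjAe.toLinearMap.restrictScalars ℚ) x

/-- The inclusion of a rational vector space in its complexification. -/
noncomputable def Cplx.of (a : V) : Cplx V := (1 : ℂ) ⊗ₜ[ℚ] a

/-- The map of complexifications given by a map of rational vector spaces. -/
noncomputable def Cplx.map (φ : V →ₗ[ℚ] W) (x : Cplx V) : Cplx W := φ.baseChange ℂ x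

/-- The element `x` of the complexification is in `F + V`. -/
def ZeroInJ (F : Submodule ℂ (Cplx V)) (x : Cplx V) : Prop :=
  ∃ f ∈ F, ∃ a : V, x = f + Cplx.of a

/-- The complexification of `V` is the direct sum of `F` and its complex conjugate. -/
def IsHodgeStr (F : Submodule ℂ (Cplx V)) : Prop :=
  (∀ x ∈ F, Cplx.conj x ∈ F → x = 0) ∧ ∀ x : Cplx V, ∃ a ∈ F, ∃ b ∈ F, x = a + Cplx.conj b

/-- The map `φ` sends `F` to `F'`. -/
def Preserves (φ : V →ₗ[ℚ] W) (F : Submodule ℂ (Cplx V)) (F' : Submodule ℂ (Cplx W)) : Prop :=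
  ∀ x ∈ F, Cplx.map φ x ∈ F'

end defs

end Pool.Agent.K4H39.AJ
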