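import Pool.Agent.K4H39.AJ.Defs
import Pool.Agent.K4H39.AJ.CplxDefs

/-!
# The complex Abel-Jacobi maps: definitions
-/

set_option autoImplicit false

open CategoryTheory AlgebraicGeometry TensorProduct

universe u v w

namespace Pool.Agent.K4H39.AJ

open Pool.Agent.H914 Pool.Agent.H914.VarClass Pool.Agent.H914.VarClass.Obj Pool.Agent.W492.BB
  Pool.Agent.W550.Corr Pool.Agent.TH133

variable {k : Type u} [Field k] {𝒱 : VarClass k} {C : TheoryData.{u, v, 0} 𝒱 ℚ}

/-- The cohomology group `H^(2i-1)(X)`. -/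
def Odd (H : WeilTheoryData.{u, v, 0} C ℚ) (X : 𝒱.Obj) (i : ℤ) : Type v := H.gr X (2 * i - 1)

noncomputable instance (H : WeilTheoryData.{u, v, 0} C ℚ) (X : 𝒱.Obj) (i : ℤ) :
    AddCommGroup (Odd H X i) :=
  Submodule.addCommGroup (H.gr X (2 * i - 1))

noncomputable instance (H : WeilTheoryData.{u, v, 0} C ℚ) (X : 𝒱.Obj) (i : ℤ) :
    Module ℚ (Odd H X i) :=
  Submodule.module (H.gr X (2 * i - 1))

/-- The cohomology class in `H(X)` given by an element of `H^(2i-1)(X)`. -/
def Odd.cls {H : WeilTheoryData.{u, v, 0} C ℚ} {X : 𝒱.Obj} {i : ℤ} (a : Odd H X i) : H.A X := a.1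

/-- The data of the complex Abel-Jacobi maps with rational coefficients: for each variety `X` and
each `i` the step `F^i` of the Hodge filtration on the complexification of `H^(2i-1)(X)`, and for
each homologically trivial `z ∈ CH^i(X)` an element `aj X i z` of this complexification,
representing the class of `z` in its quotient by `F^i + H^(2i-1)(X, ℚ)`, the intermediate Jacobian
up to torsion (with the Tate twist suppressed). -/
structure HodgeAJ (H : WeilTheoryData.{u, v, 0} C ℚ) where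
  /-- the Hodge filtration -/
  F : ∀ (X : 𝒱.Obj) (i : ℤ), Submodule ℂ (Cplx (Odd H X i))
  /-- the Abel-Jacobi map -/
  aj : ∀ (X : 𝒱.Obj) (i : ℤ), C.A X → Cplx (Odd H X i)

section data

variable {H : WeilTheoryData.{u, v, 0} C ℚ} (A : HodgeAJ H) {X Y : 𝒱.Obj}

/-- The element `x` of the complexification of `H^(2i-1)(X)` is zero in the intermediate Jacobian up
to torsion. -/
def HodgeAJ.Zero (X : 𝒱.Obj) (i : ℤ) (x : Cplx (Odd H X i)) : Prop := ZeroInJ (A.F X i) x

/-- The class of `z` under the complex Abel-Jacobi map is zero (up to torsion). -/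
def HodgeAJ.IsZero (X : 𝒱.Obj) (i : ℤ) (z : C.A X) : Prop := A.Zero X i (A.aj X i z)

/-- The map `φ` from `H^(2i-1)(X)` to `H^(2j-1)(Y)` is induced by the correspondence `Γ`. -/
def Induces (H : WeilTheoryData.{u, v, 0} C ℚ) {X Y : 𝒱.Obj} (i j : ℤ) (Γ : C.A (X.prod Y))
    (φ : Odd H X i →ₗ[ℚ] Odd H Y j) : Prop :=
  C.Deg (X.dim + (j - i)) Γ ∧ ∀ a, (φ a).cls = on H Γ a.cls

/-- Correspondences preserve the Hodge filtrations. -/
def HodgeAJ.PreservesF : Prop :=
  ∀ (X Y : 𝒱.Obj) (i j : ℤ) (Γ : C.A (X.prod Y)) (φ : Odd H X i →ₗ[ℚ] Odd H Y j),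
    Induces H i j Γ φ → Preserves φ (A.F X i) (A.F Y j)

/-- The Abel-Jacobi maps are compatible with correspondences. -/
def HodgeAJ.Compatible : Prop :=
  ∀ (X Y : 𝒱.Obj) (i j : ℤ) (Γ : C.A (X.prod Y)) (φ : Odd H X i →ₗ[ℚ] Odd H Y j)
    (z : C.A X), Induces H i j Γ φ → Hom0 H i z →
    A.Zero Y j (A.aj Y j (C.act Γ z) - Cplx.map φ (A.aj X i z))

/-- The properties of the complex Abel-Jacobi maps: Hodge theory, additivity, compatibility with
correspondences, and injectivity on divisors (up to torsion). -/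
structure HodgeAJ.IsAJ : Prop where
  hodge : ∀ (X : 𝒱.Obj) (i : ℤ), IsHodgeStr (A.F X i)
  preservesF : A.PreservesF
  add : ∀ (X : 𝒱.Obj) (i : ℤ) (z w : C.A X), Hom0 H i z → Hom0 H i w →
    A.Zero X i (A.aj X i (z + w) - (A.aj X i z + A.aj X i w))
  act : A.Compatible
  divisor : ∀ (X : 𝒱.Obj) (D : C.A X), Hom0 H 1 D → A.IsZero X 1 D → D = 0

end data

end Pool.Agent.K4H39.AJ
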