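import Pool.Agent.K4H39.AJ.GroupDefs
import Pool.Agent.K4H39.AJ.HodgeDefs

/-!
# The complex Abel-Jacobi map on abelian varieties: definitions
-/

set_option autoImplicit false

open CategoryTheory AlgebraicGeometry

universe u v w

namespace Pool.Agent.K4H39.AJ

open Pool.Agent.H914 Pool.Agent.H914.VarClass Pool.Agent.H914.VarClass.Obj Pool.Agent.W492.BB
  Pool.Agent.W550.Corr Pool.Agent.TH133

variable {k : Type u} [Field k] {𝒱 : VarClass k} {C : TheoryData.{u, v, 0} 𝒱 ℚ}

/-- The complex Abel-Jacobi map is injective (up to torsion) on the algebraically trivial cycles of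
dimension `r` on all abelian varieties. -/
def HodgeAJ.InjectiveOnAbelian {P : 𝒱.Obj} (hP : Limits.IsTerminal P)
    {H : WeilTheoryData.{u, v, 0} C ℚ} (M : HodgeAJ H) (r : ℕ) : Prop :=
  ∀ (A : 𝒱.Obj) (_ : GroupLaw hP A) (i : ℤ) (z : C.A A), i + r = A.dim → AlgTrivial H i z →
    M.IsZero A i z → z = 0

/-- The complex Abel-Jacobi map is injective (up to torsion) on the zero-cycles of degree zero on all
abelian varieties. -/
def HodgeAJ.InjectiveOnAbelianZero {P : 𝒱.Obj} (hP : Limits.IsTerminal P)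
    {H : WeilTheoryData.{u, v, 0} C ℚ} (M : HodgeAJ H) : Prop :=
  ∀ (A : 𝒱.Obj) (_ : GroupLaw hP A) (z : C.A A), Hom0 H A.dim z → M.IsZero A A.dim z → z = 0

end Pool.Agent.K4H39.AJ
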