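import Pool.Agent.K4H39.AJ.RatDefs
import Pool.Agent.K4H39.AJ.Galois

/-!
# Cycles of small dimension and rational varieties
-/

set_option autoImplicit false

open CategoryTheory AlgebraicGeometry

universe u v w

namespace Pool.Agent.K4H39.AJ

open Pool.Agent.H914 Pool.Agent.H914.VarClass Pool.Agent.H914.VarClass.Obj Pool.Agent.W492.BB
  Pool.Agent.W550.Corr Pool.Agent.TH133

variable {k : Type u} [Field k] {𝒱 : VarClass k} {C : TheoryData.{u, v, 0} 𝒱 ℚ} {K : Type w}
  [Field K] [hC : IsChowProj C] {H : WeilTheoryData.{u, v, w} C K} [hH : IsWeilProj H]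
  {N : ∀ X : 𝒱.Obj, ℤ → C.A X → Prop} {X Y : 𝒱.Obj}

/-- The kernel is preserved by correspondences. -/
def IsFunctorialKernel (H : WeilTheoryData.{u, v, w} C K)
    (N : ∀ X : 𝒱.Obj, ℤ → C.A X → Prop) : Prop :=
  ∀ {X Y : 𝒱.Obj} {i j : ℤ} {Γ : C.A (X.prod Y)} {z : C.A X},
    C.Deg (X.dim + (j - i)) Γ → Hom0 H i z → N X i z → N Y j (C.act Γ z)

/-- Injectivity on the cycles of dimension `r` on the varieties in `S`. -/
def InjOn (H : WeilTheoryData.{u, v, w} C K) (N : ∀ X : 𝒱.Obj, ℤ → C.A X → Prop)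
    (S : Set 𝒱.Obj) (r : ℕ) : Prop :=
  ∀ X ∈ S, ∀ (i : ℤ) (z : C.A X), i + r = X.dim → Hom0 H i z → N X i z → z = 0

include hC hH

lemma hom0_act {i j : ℤ} {Γ : C.A (X.prod Y)} {z : C.A X} (hΓ : C.Deg (X.dim + (j - i)) Γ)
    (hz : Hom0 H i z) : Hom0 H j (C.act Γ z) := by
  refine ⟨?_, by rw [cl_act, hz.2, TheoryData.act_map_zero]⟩
  have h1 := act_mem' C hΓ hz.1
  rwa [show i + (j - i) = j by ring] at h1

/-- Reduction to dimension `2 r + 2`. -/
theorem injOn_univ_iff (hN : IsKernel H N) (hF : IsFunctorialKernel H N)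
    (hL : LefschetzSections H) (r : ℕ) :
    InjOn H N Set.univ r ↔ InjOn H N (OfDim Set.univ (2 * r + 2)) r := by
  constructor
  · intro h X _ i z hi hz hNz
    exact h X trivial i z hi hz hNz
  · intro h
    have key : ∀ n : ℕ, ∀ (X : 𝒱.Obj) (i : ℤ) (z : C.A X), X.dim = 2 * r + 2 + n →
        i + r = X.dim → Hom0 H i z → N X i z → z = 0 := by
      intro n
      induction n with
      | zero =>
        intro X i z hX hi hz hNz
        exact h X ⟨trivial, hX⟩ i z hi hz hNz
      | succ n ih =>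
        intro X i z hX hi hz hNz
        obtain ⟨Y, f, w, hY, hw, hfw, hinj⟩ := hL.section_ X r i z (by omega) hi hz
        have hYd : (Y.dim : ℤ) + 1 = X.dim := by exact_mod_cast hY
        have hdeg : C.Deg (Y.dim + (i - (i - 1))) (C.graph f) := by
          have h1 := C.push_mem (Obj.lift (𝟙 Y) f) (C.one_mem Y)
          have e1 : (0 : ℤ) + 1 * (((Y.prod X).dim : ℤ) - (Y.dim : ℤ)) =
              Y.dim + (i - (i - 1)) := by
            rw [dim_prod]; push_cast; rw [← hYd]; ring
          rw [e1] at h1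
          exact h1
        have h2 : N Y (i - 1) (w - C.act 0 w) := by
          refine hN.inj (e := (0 : C.A (Y.prod Y))) hdeg (Submodule.zero_mem _) hw ?_ ?_
          · intro a ha hga
            have h3 : H.cl (C.graph f) = H.graph f := by
              rw [TheoryData.graph, TheoryData.graph, H.cl_push, map_one]
            rw [h3, H.act_graph] at hga
            rw [hinj a ha hga, TheoryData.act_map_zero]
          · rw [C.act_graph, hfw]
            exact hNz
        rw [TheoryData.act_zero, sub_zero] at h2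
        rw [← hfw, ih Y (i - 1) w (by omega) (by linarith) hw h2, map_zero]
    intro X _ i z hi hz hNz
    by_cases hX : 2 * r + 2 ≤ X.dim
    · exact key (X.dim - (2 * r + 2)) X i z (by omega) hi hz hNz
    · obtain ⟨P, hPd⟩ := hL.exists_dim (2 * r + 2 - X.dim)
      obtain ⟨a, ha, ha1, ha2⟩ := exists_deg_one C P
      -- the correspondence `z ↦ z × a`
      set Γ : C.A (X.prod (X.prod P)) := C.comp (C.cograph (fst X P))
        (C.mulCorr (C.pull (snd X P) a)) with hΓ
      have hact : C.act Γ z = C.pull (snd X P) a * C.pull (fst X P) z := by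
        rw [hΓ, C.act_comp, C.act_cograph, C.act_mulCorr]
      have hdeg1 : C.Deg (X.dim + 0) (C.cograph (fst X P)) := by
        have h1 := C.push_mem (Obj.lift (fst X P) (𝟙 (X.prod P))) (C.one_mem (X.prod P))
        have e1 : (0 : ℤ) + 1 * (((X.prod (X.prod P)).dim : ℤ) - ((X.prod P).dim : ℤ)) =
            X.dim + 0 := by
          rw [dim_prod, dim_prod]; push_cast; ring
        rw [e1] at h1
        exact h1
      have hdeg2 : C.Deg ((X.prod P).dim + P.dim) (C.mulCorr (C.pull (snd X P) a)) := by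
        have h1 := C.push_mem (Obj.lift (𝟙 (X.prod P)) (𝟙 (X.prod P)))
          (C.pull_mem (snd X P) ha)
        have e1 : (P.dim : ℤ) + 1 * ((((X.prod P).prod (X.prod P)).dim : ℤ) -
            ((X.prod P).dim : ℤ)) = (X.prod P).dim + P.dim := by
          rw [dim_prod, dim_prod]; push_cast; ring
        rw [e1] at h1
        exact h1
      have hdeg : C.Deg (X.dim + ((i + P.dim) - i)) Γ := by
        have h1 := comp_mem C hdeg1 hdeg2
        rw [show (X.dim : ℤ) + (0 + (P.dim : ℤ)) = X.dim + ((i + P.dim) - i) by ring] at h1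
        exact h1
      have h1 := h (X.prod P) ⟨trivial, by rw [dim_prod]; omega⟩ (i + P.dim) (C.act Γ z)
        (by rw [dim_prod]; push_cast; rw [← hi]; ring) (hom0_act hdeg hz) (hF hdeg hz hNz)
      rw [hact] at h1
      have h2 := congrArg (C.push (fst X P)) h1
      rw [map_zero, C.proj_right, ha1, one_mul] at h2
      exact h2

/-- Cycles of dimension `r + 1` on rational varieties. -/
theorem rational_tfae (hN : IsKernel H N) (hF : IsFunctorialKernel H N)
    (hL : LefschetzSections H) {R : Set 𝒱.Obj} (hR : RationalProperties H R) (r : ℕ) :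
    List.TFAE [∀ s ≤ r, InjOn H N Set.univ s,
      ∀ s ≤ r, InjOn H N (OfDim Set.univ (2 * s + 2)) s,
      ∀ s ≤ r, InjOn H N (OfDim R (4 * s + 4)) (s + 1),
      ∀ s ≤ r + 1, InjOn H N R s] := by
  tfae_have 1 ↔ 2 := forall_congr' fun s => forall_congr' fun _ => injOn_univ_iff hN hF hL s
  tfae_have 3 → 2 := by
    intro h s hs X hX i z hi hz hNz
    obtain ⟨B, hB, hBd, Γ, Δ, hΓ, hΔ, hid⟩ := hR.embed X (by rw [hX.2]; omega)
    have hΓ' : C.Deg (X.dim + ((i + (X.dim - 1)) - i)) Γ := by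
      rw [show (X.dim : ℤ) + ((i + (X.dim - 1)) - i) = X.dim + (X.dim - 1) by ring]; exact hΓ
    have hXd : (X.dim : ℤ) = 2 * s + 2 := by exact_mod_cast hX.2
    have h1 := h s hs B ⟨hB, by rw [hBd, hX.2]; ring⟩ (i + (X.dim - 1)) (C.act Γ z) (by
      rw [hBd]; push_cast; linarith) (hom0_act hΓ' hz) (hF hΓ' hz hNz)
    rw [← hid z, h1, TheoryData.act_map_zero]
  tfae_have 4 → 3 := by
    intro h s hs B hB i z hi hz hNz
    exact h (s + 1) (by omega) B hB.1 i z hi hz hNz
  tfae_have 1 → 4 := by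
    intro h s hs B hB i z hi hz hNz
    refine hR.factor B hB i s z hi hz ?_
    intro X i' j' Γ hj hi' hΓ
    have h0 : Hom0 H i' (C.act Γ z) := hom0_act hΓ hz
    by_cases hj0 : j' < 0
    · exact hC.gr_top X i' _ h0.1 (by linarith)
    · obtain ⟨t, rfl⟩ := Int.eq_ofNat_of_zero_le (not_lt.1 hj0)
      exact h t (by omega) X trivial i' (C.act Γ z) hi' h0 (hF hΓ hz hNz)
  tfae_finish

omit hC hH in
lemma isBoundary_act [hC : IsChowProj C] [hH : IsWeilProj H] {A : AJData H} (hA : A.IsRep)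
    {i j : ℤ} {Γ : C.A (X.prod Y)} (hΓ : C.Deg (X.dim + (j - i)) Γ) {x : Gal k → H.A X}
    (hx : A.IsBoundary X i x) : A.IsBoundary Y j (fun g => H.act (H.cl Γ) (x g)) := by
  obtain ⟨v, hv, hvg⟩ := hx
  refine ⟨H.act (H.cl Γ) v, ?_, fun g => ?_⟩
  · have := actH_deg (H := H) hΓ hv
    rwa [show (2 * i - 1 : ℤ) + 2 * (j - i) = 2 * j - 1 by ring] at this
  · have h1 : H.act (H.cl Γ) (A.ρ X i g v) = A.ρ Y j g (H.act (H.cl Γ) v) :=
      hA.equivariant X Y i j Γ hΓ g v
    change H.act (H.cl Γ) (x g) = A.ρ Y j g (H.act (H.cl Γ) v) - H.act (H.cl Γ) v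
    rw [hvg g, ← h1, ← act_map_sub]
    rfl

theorem AJData.IsAJ.isFunctorialKernel {A : AJData H} (hA : A.IsAJ) :
    IsFunctorialKernel H (fun X i z => A.IsZero X i z) := by
  intro X Y i j Γ z hΓ hz h
  have h1 := (hA.act X Y i j Γ z hΓ hz).add (isBoundary_act hA.isRep hΓ h)
  refine (congrArg (A.IsBoundary Y j) (funext fun g => ?_)).mp h1
  rw [on]
  abel

end Pool.Agent.K4H39.AJ
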