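import Pool.Agent.K4H39.AJ.CorrDefs
import Pool.Agent.K4H39.AJ.Rat

/-!
# Products and correspondences
-/

set_option autoImplicit false

open CategoryTheory AlgebraicGeometry

universe u v w

namespace Pool.Agent.K4H39.AJ

open Pool.Agent.H914 Pool.Agent.H914.VarClass Pool.Agent.H914.VarClass.Obj Pool.Agent.W492.BB
  Pool.Agent.W550.Corr Pool.Agent.TH133

variable {k : Type u} [Field k] {𝒱 : VarClass k} {C : TheoryData.{u, v, 0} 𝒱 ℚ} {K : Type w}
  [Field K] [hC : IsChowProj C] {H : WeilTheoryData.{u, v, w} C K} [hH : IsWeilProj H]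
  {N : ∀ X : 𝒱.Obj, ℤ → C.A X → Prop} {X Y Z : 𝒱.Obj}

include hC

lemma mulCorr_deg {j : ℤ} {w : C.A X} (hw : C.Deg j w) : C.Deg (X.dim + j) (C.mulCorr w) := by
  have h1 := C.push_mem (Obj.lift (𝟙 X) (𝟙 X)) hw
  have e1 : j + 1 * (((X.prod X).dim : ℤ) - (X.dim : ℤ)) = X.dim + j := by
    rw [dim_prod]; push_cast; ring
  rw [e1] at h1
  exact h1

lemma cograph_deg (X Y : 𝒱.Obj) : C.Deg (X.dim : ℤ) (C.cograph (fst X Y)) := by
  have h1 := C.push_mem (Obj.lift (fst X Y) (𝟙 (X.prod Y))) (C.one_mem (X.prod Y))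
  have e1 : (0 : ℤ) + 1 * (((X.prod (X.prod Y)).dim : ℤ) - ((X.prod Y).dim : ℤ)) = X.dim := by
    rw [dim_prod, dim_prod]; push_cast; ring
  rw [e1] at h1
  exact h1

include hH

lemma mulCorr_hom0 {j : ℤ} {w : C.A X} (hw : Hom0 H j w) : Hom0 H (X.dim + j) (C.mulCorr w) := by
  refine ⟨mulCorr_deg hw.1, ?_⟩
  have h1 := H.cl_push (Obj.lift (𝟙 X) (𝟙 X)) w
  have h2 : H.cl (C.mulCorr w) = H.push (Obj.lift (𝟙 X) (𝟙 X)) (H.cl w) := h1
  rw [h2, hw.2, map_zero]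

/-- For homologically trivial cycles. -/
theorem outer_iff_inner (S : CycleClass C)
    (hS : ∀ (X Y : 𝒱.Obj) (i : ℤ), ∀ z ∈ S X i, C.pull (fst X Y) z ∈ S (X.prod Y) i) :
    OuterZero H S ↔ InnerZero H S := by
  constructor
  · intro h X i j z hz w hw
    have h1 := h X X i j z hz w hw
    have h2 := congrArg (C.pull (Obj.lift (𝟙 X) (𝟙 X))) h1
    rw [map_mul, ← C.pull_comp, ← C.pull_comp, Obj.lift_fst, Obj.lift_snd, C.pull_id, C.pull_id,
      map_zero] at h2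
    exact h2
  · intro h X Y i j z hz w hw
    exact h (X.prod Y) i j _ (hS X Y i z hz) _
      ⟨C.pull_mem _ hw.1, by rw [H.cl_pull, hw.2, map_zero]⟩

theorem act_iff_inner (S : CycleClass C)
    (hS : ∀ (X Y : 𝒱.Obj) (i : ℤ), ∀ z ∈ S X i, C.pull (fst X Y) z ∈ S (X.prod Y) i) :
    ActAsZero H S ↔ InnerZero H S := by
  constructor
  · intro h X i j z hz w hw
    have h1 := h X X i (i + j) (C.mulCorr w) (by
      rw [show (i + j - i : ℤ) = j by ring]; exact mulCorr_hom0 hw) z hz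
    rw [C.act_mulCorr] at h1
    rw [ch_comm C z w]
    exact h1
  · intro h X Y i j Γ hΓ z hz
    rw [TheoryData.act_apply, ch_comm C Γ, h (X.prod Y) i _ _ (hS X Y i z hz) Γ hΓ, map_zero]

theorem square_iff_inner : SquareZero H ↔ InnerZero H (homTriv H) := by
  constructor
  · intro h X i j z hz w hw
    have h1 := h X X X _ _ _ (mulCorr_hom0 (H := H) hz) _ (mulCorr_hom0 (H := H) hw)
    have h2 : C.act (C.comp (C.mulCorr z) (C.mulCorr w)) 1 = 0 := by
      rw [h1, TheoryData.act_zero]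
    rw [C.act_comp, C.act_mulCorr, C.act_mulCorr, mul_one] at h2
    rw [ch_comm C z w]
    exact h2
  · intro h X Y Z i j Γ hΓ Δ hΔ
    rw [TheoryData.comp, h _ j i _ ⟨C.pull_mem _ hΔ.1, by rw [H.cl_pull, hΔ.2, map_zero]⟩ _
      ⟨C.pull_mem _ hΓ.1, by rw [H.cl_pull, hΓ.2, map_zero]⟩, map_zero]

theorem hom_tfae : List.TFAE [ActAsZero H (homTriv H), InnerZero H (homTriv H),
    OuterZero H (homTriv H), SquareZero H] := by
  have hS : ∀ (X Y : 𝒱.Obj) (i : ℤ), ∀ z ∈ homTriv H X i,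
      C.pull (fst X Y) z ∈ homTriv H (X.prod Y) i := fun X Y i z hz =>
    ⟨C.pull_mem _ hz.1, by rw [H.cl_pull, hz.2, map_zero]⟩
  tfae_have 1 ↔ 2 := act_iff_inner _ hS
  tfae_have 3 ↔ 2 := outer_iff_inner _ hS
  tfae_have 4 ↔ 2 := square_iff_inner
  tfae_finish

omit hH in
lemma algTriv_act {i j : ℤ} {Γ : C.A (X.prod Y)} (hΓ : C.Deg (X.dim + (j - i)) Γ) {z : C.A X}
    (hz : AlgTrivial H i z) : AlgTrivial H j (C.act Γ z) := by
  obtain ⟨T, α, c, hT, hc, hα, rfl⟩ := hz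
  have hdim : (T.dim : ℤ) = 1 := by exact_mod_cast hT
  refine ⟨T, C.comp α Γ, c, hT, hc, ?_, by rw [C.act_comp]⟩
  have := comp_mem C (e := i - 1) (e' := j - i) (Γ := α) (Δ := Γ)
    (by rw [hdim, show (1 : ℤ) + (i - 1) = i by ring]; exact hα) hΓ
  rw [hdim, show (1 : ℤ) + (i - 1 + (j - i)) = j by ring] at this
  exact this

omit hH in
lemma algTriv_pull (X Y : 𝒱.Obj) (i : ℤ) {z : C.A X} (hz : AlgTrivial H i z) :
    AlgTrivial H i (C.pull (fst X Y) z) := by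
  have h1 := algTriv_act (H := H) (i := i) (j := i) (Γ := C.cograph (fst X Y)) (z := z)
    (by rw [sub_self, add_zero]; exact cograph_deg X Y) hz
  rwa [C.act_cograph] at h1

theorem alg_tfae (hN : IsKernel H N) (hP : CurveProperties H) :
    List.TFAE [InjAlg H N, ActAsZero H (algTriv H), InnerZero H (algTriv H),
      OuterZero H (algTriv H)] := by
  have hS : ∀ (X Y : 𝒱.Obj) (i : ℤ), ∀ z ∈ algTriv H X i,
      C.pull (fst X Y) z ∈ algTriv H (X.prod Y) i := fun X Y i z hz => algTriv_pull X Y i hz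
  tfae_have 2 ↔ 3 := act_iff_inner _ hS
  tfae_have 4 ↔ 3 := outer_iff_inner _ hS
  tfae_have 1 → 2 := by
    intro h X Y i j Γ hΓ z hz
    have hz0 : Hom0 H i z := by
      obtain ⟨T, α, c, hT, hc, hα, rfl⟩ := hz
      have hdim : (T.dim : ℤ) = 1 := by exact_mod_cast hT
      exact hom0_act (by rw [hdim, show (1 : ℤ) + (i - 1) = i by ring]; exact hα) hc
    exact h Y j _ (algTriv_act hΓ.1 hz) (hN.hom hΓ.1 hΓ.2 hz0)
  tfae_have 3 → 1 := by
    intro h
    rw [injAlg_iff hN hP, curves_iff_divisors hP]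
    intro Y i D Γ hD hΓ
    exact h Y 1 i D (hP.divisor Y D hD) Γ hΓ
  tfae_finish

theorem zero_iff (hN : IsKernel H N) (hP : CurveProperties H) :
    (∀ (X : 𝒱.Obj) (z : C.A X), Hom0 H X.dim z → N X X.dim z → z = 0) ↔
      ActAsZeroOnZeroCycles H := by
  constructor
  · intro h X Y Γ z hΓ hz
    have hdeg : C.Deg (X.dim + ((Y.dim : ℤ) - X.dim)) Γ := by
      rw [show (X.dim : ℤ) + ((Y.dim : ℤ) - X.dim) = Y.dim by ring]; exact hΓ.1
    exact h Y _ (hom0_act hdeg hz) (hN.hom hdeg hΓ.2 hz)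
  · intro h X z hz hNz
    obtain ⟨T, Γ, c, hT, hc, hΓ, rfl⟩ := (kernel_iff hN hP (hP.zeroCycle X z hz)).1 hNz
    have hdim : (T.dim : ℤ) = 1 := by exact_mod_cast hT
    exact h T X Γ c hΓ (by rw [hdim]; exact hc)

omit hC hH in
theorem noPhantoms (h : SquareZero H) : NoPhantoms H := by
  intro X e he hee
  rw [← hee]
  exact h X X X _ _ e he e he

/-- The whole conjecture. -/
theorem inj_hom (hN : IsKernel H N)
    (h : ∀ (X : 𝒱.Obj) (i : ℤ) (z : C.A X), Hom0 H i z → N X i z → z = 0) :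
    ActAsZero H (homTriv H) := by
  intro X Y i j Γ hΓ z hz
  exact h Y j _ (hom0_act hΓ.1 hz) (hN.hom hΓ.1 hΓ.2 hz)

end Pool.Agent.K4H39.AJ
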