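import Pool.Agent.K4H39.AJ.HodgeDefs

/-!
# Products and correspondences: definitions
-/

set_option autoImplicit false

open CategoryTheory AlgebraicGeometry

universe u v w

namespace Pool.Agent.K4H39.AJ

open Pool.Agent.H914 Pool.Agent.H914.VarClass Pool.Agent.H914.VarClass.Obj Pool.Agent.W492.BB
  Pool.Agent.W550.Corr Pool.Agent.TH133

variable {k : Type u} [Field k] {𝒱 : VarClass k} {C : TheoryData.{u, v, 0} 𝒱 ℚ} {K : Type w}
  [Field K]

/-- A class of cycles: for each variety and each codimension a set of cycle classes. -/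
def CycleClass (C : TheoryData.{u, v, 0} 𝒱 ℚ) : Type _ := ∀ X : 𝒱.Obj, ℤ → Set (C.A X)

/-- The homologically trivial cycle classes. -/
def homTriv (H : WeilTheoryData.{u, v, w} C K) : CycleClass C := fun _ i => {z | Hom0 H i z}

/-- The algebraically trivial cycle classes. -/
def algTriv (H : WeilTheoryData.{u, v, w} C K) : CycleClass C := fun _ i => {z | AlgTrivial H i z}

/-- Homologically trivial correspondences act as zero on the cycle classes in `S`: the action of
correspondences on these classes only depends on their cohomology classes. -/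
def ActAsZero (H : WeilTheoryData.{u, v, w} C K) (S : CycleClass C) : Prop :=
  ∀ (X Y : 𝒱.Obj) (i j : ℤ) (Γ : C.A (X.prod Y)), Hom0 H (X.dim + (j - i)) Γ →
    ∀ z ∈ S X i, C.act Γ z = 0

/-- The product of a cycle class in `S` and a homologically trivial cycle class is zero. -/
def InnerZero (H : WeilTheoryData.{u, v, w} C K) (S : CycleClass C) : Prop :=
  ∀ (X : 𝒱.Obj) (i j : ℤ), ∀ z ∈ S X i, ∀ w ∈ homTriv H X j, z * w = 0

/-- The external product of a cycle class in `S` and a homologically trivial cycle class is zero. -/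
def OuterZero (H : WeilTheoryData.{u, v, w} C K) (S : CycleClass C) : Prop :=
  ∀ (X Y : 𝒱.Obj) (i j : ℤ), ∀ z ∈ S X i, ∀ w ∈ homTriv H Y j,
    C.pull (fst X Y) z * C.pull (snd X Y) w = 0

/-- The composition of two homologically trivial correspondences is zero: the kernel of the functor
from Chow motives to homological motives is an ideal with square zero. -/
def SquareZero (H : WeilTheoryData.{u, v, w} C K) : Prop :=
  ∀ (X Y Z : 𝒱.Obj) (i j : ℤ), ∀ Γ ∈ homTriv H (X.prod Y) i, ∀ Δ ∈ homTriv H (Y.prod Z) j,
    C.comp Γ Δ = 0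

/-- Homologically trivial correspondences act as zero on zero-cycles of degree zero: the action of
correspondences on `CH_0(X)^0` only depends on their cohomology classes. -/
def ActAsZeroOnZeroCycles (H : WeilTheoryData.{u, v, w} C K) : Prop :=
  ∀ (X Y : 𝒱.Obj) (Γ : C.A (X.prod Y)) (z : C.A X), Hom0 H Y.dim Γ → Hom0 H X.dim z →
    C.act Γ z = 0

/-- A correspondence `e` in `CH^(dim X)(X × X)` which is idempotent and homologically trivial is
zero: a Chow motive with zero cohomology is zero. -/
def NoPhantoms (H : WeilTheoryData.{u, v, w} C K) : Prop :=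
  ∀ (X : 𝒱.Obj) (e : C.A (X.prod X)), Hom0 H X.dim e → C.comp e e = e → e = 0

/-- The complex Abel-Jacobi map is injective (up to torsion) on the cycle classes in `S`. -/
def HodgeAJ.InjectiveOnClass {H : WeilTheoryData.{u, v, 0} C ℚ} (A : HodgeAJ H)
    (S : CycleClass C) : Prop :=
  ∀ (X : 𝒱.Obj) (i : ℤ), ∀ z ∈ S X i, A.IsZero X i z → z = 0

end Pool.Agent.K4H39.AJ
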