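import Pool.Agent.TH133.Base

/-!
# Abel-Jacobi maps with values in Galois cohomology: definitions
-/

set_option autoImplicit false

open CategoryTheory AlgebraicGeometry

universe u v w

namespace Pool.Agent.K4H39.AJ

open Pool.Agent.H914 Pool.Agent.H914.VarClass Pool.Agent.H914.VarClass.Obj Pool.Agent.W492.BB
  Pool.Agent.W550.Corr Pool.Agent.TH133

variable {k : Type u} [Field k] {𝒱 : VarClass k} {C : TheoryData.{u, v, 0} 𝒱 ℚ} {K : Type w}
  [Field K]

/-- The cycle class `z` is in `CH^i(X)` and homologically trivial. -/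
def Hom0 (H : WeilTheoryData.{u, v, w} C K) {X : 𝒱.Obj} (i : ℤ) (z : C.A X) : Prop :=
  C.Deg i z ∧ H.cl z = 0

/-- The cycle class `z` on `X` is of the form `Γ_* c`, where `c` is a zero-cycle of degree zero on a
curve `T` and `Γ ∈ CH^i(T × X)`: it is in `CH^i(X)` and algebraically equivalent to zero. -/
def AlgTrivial (H : WeilTheoryData.{u, v, w} C K) {X : 𝒱.Obj} (i : ℤ) (z : C.A X) : Prop :=
  ∃ (T : 𝒱.Obj) (Γ : C.A (T.prod X)) (c : C.A T), T.dim = 1 ∧ Hom0 H 1 c ∧ C.Deg i Γ ∧
    z = C.act Γ c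

/-- The cycle class `z` on `X` is of the form `Γ_* c`, where `c` is a zero-cycle of degree zero on a
curve `T` and `Γ ∈ CH^i(T × X)` is **homologically trivial**. -/
def DoublyTrivial (H : WeilTheoryData.{u, v, w} C K) {X : 𝒱.Obj} (i : ℤ) (z : C.A X) : Prop :=
  ∃ (T : 𝒱.Obj) (Γ : C.A (T.prod X)) (c : C.A T), T.dim = 1 ∧ Hom0 H 1 c ∧ Hom0 H i Γ ∧
    z = C.act Γ c

/-- The action of the correspondence `Γ` on cohomology. -/
noncomputable def on (H : WeilTheoryData.{u, v, w} C K) {X Y : 𝒱.Obj} (Γ : C.A (X.prod Y))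
    (a : H.A X) : H.A Y := H.act (H.cl Γ) a

/-- The correspondence `e` projects the part of degree `m` of the cohomology of `X` onto the kernel
of `Γ` in this part. -/
def ProjectsOntoKernel (H : WeilTheoryData.{u, v, w} C K) {X Y : 𝒱.Obj} (m : ℤ)
    (e : C.A (X.prod X)) (Γ : C.A (X.prod Y)) : Prop :=
  ∀ a : H.A X, H.Deg m a → on H Γ (on H e a) = 0 ∧ (on H Γ a = 0 → on H e a = a)

/-- The known properties of curves which are used:

* let `Γ` be a correspondence from a curve `T` to `X`. The kernel of `Γ_*` on `H^1(T)` is the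
  cohomology of a factor of the Jacobian up to isogeny, that is, there is a self-correspondence `e`
  of `T` which projects `H^1(T)` onto the kernel, and acts as zero on `H^0(T)` and `H^2(T)`
  (in characteristic zero: the kernel is given by a Hodge substructure, the Jacobian is completely
  reducible by Poincaré, and its endomorphisms are algebraic);
* homologically trivial divisors, and zero-cycles of degree zero, are algebraically trivial. -/
structure CurveProperties (H : WeilTheoryData.{u, v, w} C K) : Prop where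
  kernel : ∀ (T X : 𝒱.Obj) (i : ℤ) (Γ : C.A (T.prod X)), T.dim = 1 → C.Deg i Γ →
    ∃ e : C.A (T.prod T), C.Deg 1 e ∧ ProjectsOntoKernel H 1 e Γ ∧
      ∀ (m : ℤ) (a : H.A T), m ≠ 1 → H.Deg m a → on H e a = 0
  divisor : ∀ (X : 𝒱.Obj) (D : C.A X), Hom0 H 1 D → AlgTrivial H 1 D
  zeroCycle : ∀ (X : 𝒱.Obj) (a : C.A X), Hom0 H X.dim a → AlgTrivial H X.dim a

/-- The absolute Galois group of `k`. -/
abbrev Gal (k : Type u) [Field k] : Type u := AlgebraicClosure k ≃ₐ[k] AlgebraicClosure k

/-- The data of the `p`-adic Abel-Jacobi maps over the field `k`: for each variety `X` and each `i`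
the action `ρ X i` of the absolute Galois group of `k` on the cohomology `H(X)(i)` (the `i`-th Tate
twist), and, for each homologically trivial `z ∈ CH^i(X)`, a cocycle `aj X i z` with values in
`H^(2i-1)(X)(i)`. -/
structure AJData (H : WeilTheoryData.{u, v, w} C K) where
  /-- the Galois action -/
  ρ : ∀ (X : 𝒱.Obj), ℤ → Gal k → H.A X →ₗ[K] H.A X
  /-- the cocycle -/
  aj : ∀ (X : 𝒱.Obj), ℤ → C.A X → Gal k → H.A X

section data

variable {H : WeilTheoryData.{u, v, w} C K} (A : AJData H) {X Y : 𝒱.Obj}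

/-- The action of `g` on the class `a` in `H(X)(i)`. -/
def AJData.tw (i : ℤ) (g : Gal k) (a : H.A X) : H.A X := A.ρ X i g a

/-- The coboundary `g ↦ g v - v` of the class `v` in `H(X)(i)`. -/
def AJData.bd (i : ℤ) (v : H.A X) (g : Gal k) : H.A X := A.tw i g v - v

/-- The function `x` from the Galois group to `H^(2i-1)(X)(i)` is a coboundary. -/
def AJData.IsBoundary (X : 𝒱.Obj) (i : ℤ) (x : Gal k → H.A X) : Prop :=
  ∃ v : H.A X, H.Deg (2 * i - 1) v ∧ ∀ g, x g = A.bd i v g

/-- The class of `z` under the Abel-Jacobi map, in the Galois cohomology group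
`H^1(k, H^(2i-1)(X)(i))`, is zero. -/
def AJData.IsZero (X : 𝒱.Obj) (i : ℤ) (z : C.A X) : Prop :=
  A.IsBoundary X i (A.aj X i z)

/-- The subspace `U` of `H(X)(i)` is stable under the Galois group. -/
def AJData.IsStable (i : ℤ) (U : Submodule K (H.A X)) : Prop :=
  ∀ g, ∀ a ∈ U, A.tw i g a ∈ U

/-- The Galois group acts on `H(X)(i)`, preserving degrees. -/
structure AJData.IsAction : Prop where
  one : ∀ (X : 𝒱.Obj) (i : ℤ) (a : H.A X), A.tw i 1 a = a
  mul : ∀ (X : 𝒱.Obj) (i : ℤ) (g h : Gal k) (a : H.A X), A.tw i (g * h) a =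
    A.tw i g (A.tw i h a)
  mem : ∀ (X : 𝒱.Obj) (i m : ℤ) (g : Gal k) (a : H.A X), H.Deg m a → H.Deg m (A.tw i g a)

/-- Correspondences commute with the Galois action. -/
def AJData.Equivariant : Prop :=
  ∀ (X Y : 𝒱.Obj) (i j : ℤ) (Γ : C.A (X.prod Y)), C.Deg (X.dim + (j - i)) Γ →
    ∀ (g : Gal k) (a : H.A X), on H Γ (A.tw i g a) = A.tw j g (on H Γ a)

/-- No quotient of the representation `H^(2i-1)(X)(i)` has nonzero invariants. -/
def AJData.Pure : Prop :=
  ∀ (X : 𝒱.Obj) (i : ℤ) (U : Submodule K (H.A X)), U ≤ H.gr X (2 * i - 1) → A.IsStable i U →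
    ∀ v : H.A X, H.Deg (2 * i - 1) v → (∀ g, A.bd i v g ∈ U) → v ∈ U

/-- The properties of the Galois representations `H^(2i-1)(X)(i)`: they commute with correspondences,
and no quotient of them has nonzero invariants (for finitely generated fields `k` this is a
consequence of the Weil conjectures: the weight is `-1`). -/
structure AJData.IsRep : Prop where
  isAction : A.IsAction
  equivariant : A.Equivariant
  isPure : A.Pure

/-- The cocycles of the Abel-Jacobi map, and their additivity. -/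
structure AJData.IsCocycle : Prop where
  mem : ∀ (X : 𝒱.Obj) (i : ℤ) (z : C.A X), Hom0 H i z → ∀ g, H.Deg (2 * i - 1) (A.aj X i z g)
  cocycle : ∀ (X : 𝒱.Obj) (i : ℤ) (z : C.A X), Hom0 H i z → ∀ g h,
    A.aj X i z (g * h) = A.aj X i z g + A.tw i g (A.aj X i z h)
  add : ∀ (X : 𝒱.Obj) (i : ℤ) (z w : C.A X), Hom0 H i z → Hom0 H i w →
    A.IsBoundary X i (fun g => A.aj X i (z + w) g - (A.aj X i z g + A.aj X i w g))

/-- The properties of the Abel-Jacobi maps: `aj X i z` is a cocycle with values in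
`H^(2i-1)(X)(i)`, its class is additive in `z` and compatible with correspondences, and the map is
injective on divisors (by the theorem of Mordell and Weil). -/
structure AJData.IsAJ : Prop where
  isRep : A.IsRep
  isCocycle : A.IsCocycle
  act : ∀ (X Y : 𝒱.Obj) (i j : ℤ) (Γ : C.A (X.prod Y)) (z : C.A X),
    C.Deg (X.dim + (j - i)) Γ → Hom0 H i z →
    A.IsBoundary Y j (fun g => A.aj Y j (C.act Γ z) g - on H Γ (A.aj X i z g))
  divisor : ∀ (X : 𝒱.Obj) (D : C.A X), Hom0 H 1 D → A.IsZero X 1 D → D = 0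

end data

end Pool.Agent.K4H39.AJ
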