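import Pool.Agent.K4H39.AJ.DimDefs
import Pool.Agent.K4H39.AJ.Galois

/-!
# The equivalences for cycles of dimension `r`
-/

set_option autoImplicit false

open CategoryTheory AlgebraicGeometry

universe u v w

namespace Pool.Agent.K4H39.AJ

open Pool.Agent.H914 Pool.Agent.H914.VarClass Pool.Agent.H914.VarClass.Obj Pool.Agent.W492.BB
  Pool.Agent.W550.Corr Pool.Agent.TH133

variable {k : Type u} [Field k] {𝒱 : VarClass k} {C : TheoryData.{u, v, 0} 𝒱 ℚ} {K : Type w}
  [Field K] [hC : IsChowProj C] {H : WeilTheoryData.{u, v, w} C K} [hH : IsWeilProj H]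
  {N : ∀ X : 𝒱.Obj, ℤ → C.A X → Prop} {X Y Z : 𝒱.Obj}

include hC hH

/-- Doubly trivial cycles of dimension `r` are zero. -/
def DoublyZero (H : WeilTheoryData.{u, v, w} C K) (r : ℕ) : Prop :=
  ∀ (X : 𝒱.Obj) (i : ℤ) (z : C.A X), i + r = X.dim → DoublyTrivial H i z → z = 0

/-- All products of homologically trivial divisor classes and homologically trivial cycle classes of
dimension `r + 1` are zero. -/
def AllProductsVanish (H : WeilTheoryData.{u, v, w} C K) (r : ℕ) : Prop :=
  ∀ (Y : 𝒱.Obj) (i : ℤ) (D Γ : C.A Y), i + r + 1 = Y.dim → Hom0 H 1 D → Hom0 H i Γ → D * Γ = 0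

theorem injAlg_iff' (hN : IsKernel H N) (hP : CurveProperties H) (r : ℕ) :
    (∀ (X : 𝒱.Obj) (i : ℤ) (z : C.A X), i + r = X.dim → AlgTrivial H i z → N X i z → z = 0) ↔
      DoublyZero H r := by
  constructor
  · intro h X i z hi hz
    exact h X i z hi hz.algTrivial ((kernel_iff hN hP hz.algTrivial).2 hz)
  · intro h X i z hi hz hNz
    exact h X i z hi ((kernel_iff hN hP hz).1 hNz)

theorem doubly_iff_products (hP : CurveProperties H) (r : ℕ) :
    DoublyZero H r ↔ AllProductsVanish H r := by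
  constructor
  · intro h Y i D Γ hi hD hΓ
    obtain ⟨T, lam, c, hT, hc, hl, rfl⟩ := hP.divisor Y D hD
    apply h Y (1 + i) _ (by rw [← hi]; ring)
    refine ⟨T, lam * C.pull (snd T Y) Γ, c, hT, hc,
      ⟨C.mul_mem hl (C.pull_mem _ hΓ.1), ?_⟩, ?_⟩
    · rw [map_mul, H.cl_pull, hΓ.2, map_zero, mul_zero]
    · rw [TheoryData.act_apply, TheoryData.act_apply, ← C.proj_right, mul_assoc, mul_assoc,
        ch_comm C (C.pull (snd T Y) Γ)]
  · rintro h X i z hi ⟨T, Γ, c, hT, hc, hΓ, rfl⟩
    have hdim : (T.dim : ℤ) = 1 := by exact_mod_cast hT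
    rw [TheoryData.act_apply, ch_comm C Γ, h (T.prod X) i (C.pull (fst T X) c) Γ
      (by rw [dim_prod]; push_cast; rw [hdim, ← hi]; ring)
      ⟨C.pull_mem _ hc.1, by rw [H.cl_pull, hc.2, map_zero]⟩ hΓ, map_zero]

theorem doubly_iff_families (hP : CurveProperties H) (r : ℕ) :
    DoublyZero H r ↔ FamiliesAreConstant H r := by
  constructor
  · intro h T X i Γ a hi hΓ ha
    obtain ⟨T', α, c, hT', hc, hα, rfl⟩ := hP.zeroCycle T a ha
    have hdim : (T'.dim : ℤ) = 1 := by exact_mod_cast hT'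
    apply h X i _ hi
    refine ⟨T', C.comp α Γ, c, hT', hc, ⟨?_, cl_comp_zero_right hΓ.2⟩, ?_⟩
    · have := comp_mem C (e := T.dim - 1) (e' := i - T.dim) (Γ := α) (Δ := Γ)
        (by rw [hdim, show (1 : ℤ) + (T.dim - 1) = T.dim by ring]; exact hα)
        (by rw [show (T.dim : ℤ) + (i - T.dim) = i by ring]; exact hΓ.1)
      rw [hdim, show (1 : ℤ) + (T.dim - 1 + (i - T.dim)) = i by ring] at this
      exact this
    · rw [C.act_comp]
  · rintro h X i z hi ⟨T, Γ, c, hT, hc, hΓ, rfl⟩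
    have hdim : (T.dim : ℤ) = 1 := by exact_mod_cast hT
    exact h T X i Γ c hi hΓ (by rw [hdim]; exact hc)

/-- Reduction of the dimension. -/
theorem products_iff (hL : HyperplaneSections H) (r : ℕ) :
    AllProductsVanish H r ↔ ProductsVanish H r := by
  constructor
  · intro h Y D Γ hY hD hΓ
    exact h Y (r + 2) D Γ (by rw [hY]; push_cast; ring) hD hΓ
  · intro h
    -- first the dimensions at least `2 r + 3`
    have key : ∀ n : ℕ, ∀ (Y : 𝒱.Obj) (i : ℤ) (D Γ : C.A Y), Y.dim = 2 * r + 3 + n →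
        i + r + 1 = Y.dim → Hom0 H 1 D → Hom0 H i Γ → D * Γ = 0 := by
      intro n
      induction n with
      | zero =>
        intro Y i D Γ hY hi hD hΓ
        have : i = r + 2 := by rw [hY] at hi; push_cast at hi; linarith
        subst this
        exact h Y D Γ hY hD hΓ
      | succ n ih =>
        intro Y i D Γ hY hi hD hΓ
        obtain ⟨Y', f, w, hY', hw, rfl⟩ := hL.section_ Y (r + 1) i Γ (by omega)
          (by push_cast; rw [← hi]; ring) hΓ
        rw [← C.proj_left, ih Y' (i - 1) (C.pull f D) w (by omega) (by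
          have : (Y'.dim : ℤ) + 1 = Y.dim := by exact_mod_cast hY'
          linarith) ⟨C.pull_mem f hD.1, by rw [H.cl_pull, hD.2, map_zero]⟩ hw, map_zero]
    intro Y i D Γ hi hD hΓ
    by_cases hY : 2 * r + 3 ≤ Y.dim
    · exact key (Y.dim - (2 * r + 3)) Y i D Γ (by omega) hi hD hΓ
    · obtain ⟨P, hPd⟩ := hL.exists_dim (2 * r + 3 - Y.dim)
      obtain ⟨a, ha, ha1, ha2⟩ := exists_deg_one C P
      have h1 := key 0 (Y.prod P) (i + P.dim) (C.pull (fst Y P) D)
        (C.pull (fst Y P) Γ * C.pull (snd Y P) a) (by rw [dim_prod]; omega)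
        (by rw [dim_prod]; push_cast; rw [← hi]; ring)
        ⟨C.pull_mem _ hD.1, by rw [H.cl_pull, hD.2, map_zero]⟩
        ⟨C.mul_mem (C.pull_mem _ hΓ.1) (C.pull_mem _ ha), by
          rw [map_mul, H.cl_pull, hΓ.2, map_zero, zero_mul]⟩
      have h2 := congrArg (C.push (fst Y P)) h1
      rw [map_zero, ← mul_assoc, ← map_mul, C.proj_left, ha1, mul_one] at h2
      exact h2

theorem main_tfae {A : AJData H} (hA : A.IsAJ) (hP : CurveProperties H)
    (hL : HyperplaneSections H) (r : ℕ) :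
    List.TFAE [InjectiveOnAlgTrivial A r, ProductsVanish H r, FamiliesAreConstant H r] := by
  have h1 := injAlg_iff' hA.isKernel hP r
  have h2 := (doubly_iff_products hP r).trans (products_iff hL r)
  have h3 := doubly_iff_families hP r
  tfae_have 1 ↔ 2 := h1.trans h2
  tfae_have 2 ↔ 3 := h2.symm.trans h3
  tfae_finish

theorem zeroCycles_iff {A : AJData H} (hP : CurveProperties H) :
    InjectiveOnZeroCycles A ↔ InjectiveOnAlgTrivial A 0 := by
  constructor
  · intro h X i z hi hz hNz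
    have hi' : i = X.dim := by rw [← hi]; push_cast; ring
    subst hi'
    obtain ⟨T, Γ, c, hT, hc, hΓ, rfl⟩ := hz
    have hdim : (T.dim : ℤ) = 1 := by exact_mod_cast hT
    refine h X _ ⟨?_, ?_⟩ hNz
    · have := act_mem' C (e := X.dim - 1) (i := 1) (Γ := Γ) (by
        rw [hdim, show (1 : ℤ) + (X.dim - 1) = X.dim by ring]; exact hΓ) hc.1
      rwa [show (1 : ℤ) + (X.dim - 1) = X.dim by ring] at this
    · rw [cl_act, hc.2, TheoryData.act_map_zero]
  · intro h X z hz hNz
    exact h X X.dim z (by push_cast; ring) (hP.zeroCycle X z hz) hNz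

end Pool.Agent.K4H39.AJ
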