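import Pool.Agent.K4H39.AJ.Defs

/-!
# The four statements on cycles of dimension `r`
-/

set_option autoImplicit false

open CategoryTheory AlgebraicGeometry

universe u v w w'

namespace Pool.Agent.K4H39.AJ

open Pool.Agent.H914 Pool.Agent.H914.VarClass Pool.Agent.H914.VarClass.Obj Pool.Agent.W492.BB
  Pool.Agent.W550.Corr Pool.Agent.TH133

variable {k : Type u} [Field k] {𝒱 : VarClass k} {C : TheoryData.{u, v, 0} 𝒱 ℚ} {K : Type w}
  [Field K]

/-- The known properties of hyperplane sections which are used: if `dim X > 2 s + 1` then each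
homologically trivial cycle class of dimension `s` on `X` is the direct image of a homologically
trivial cycle class on a variety of dimension `dim X - 1` (a smooth hypersurface section through the
cycle, by Kleiman's smoothing of cycles, Bertini's theorem and the Lefschetz hyperplane theorem);
and the class of varieties contains varieties of all dimensions (projective spaces). -/
structure HyperplaneSections (H : WeilTheoryData.{u, v, w} C K) : Prop where
  section_ : ∀ (X : 𝒱.Obj) (s : ℕ) (i : ℤ) (z : C.A X), 2 * s + 1 < X.dim → i + s = X.dim →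
    Hom0 H i z → ∃ (Y : 𝒱.Obj) (f : Y ⟶ X) (w : C.A Y), Y.dim + 1 = X.dim ∧
      Hom0 H (i - 1) w ∧ C.push f w = z
  exists_dim : ∀ n : ℕ, ∃ P : 𝒱.Obj, P.dim = n

/-- On algebraically trivial cycles, the kernel of the `p`-adic Abel-Jacobi map consists of the
classes `Γ_* c` with `c` a zero-cycle of degree zero on a curve and `Γ` homologically trivial. -/
def KernelIsDoublyTrivial {H : WeilTheoryData.{u, v, w} C K} (A : AJData H) : Prop :=
  ∀ (X : 𝒱.Obj) (i : ℤ) (z : C.A X), AlgTrivial H i z → (A.IsZero X i z ↔ DoublyTrivial H i z)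

/-- Homological equivalence is the same for the cohomology theories `H` and `H'`. -/
def SameHomEquiv {K' : Type w'} [Field K'] (H : WeilTheoryData.{u, v, w} C K)
    (H' : WeilTheoryData.{u, v, w'} C K') : Prop :=
  ∀ (X : 𝒱.Obj) (z : C.A X), H.cl z = 0 ↔ H'.cl z = 0

/-- On algebraically trivial cycles, the kernels of the Abel-Jacobi maps `A` and `A'` are the same. -/
def SameKernel {K' : Type w'} [Field K'] {H : WeilTheoryData.{u, v, w} C K}
    {H' : WeilTheoryData.{u, v, w'} C K'} (A : AJData H) (A' : AJData H') : Prop :=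
  ∀ (X : 𝒱.Obj) (i : ℤ) (z : C.A X), AlgTrivial H i z → (A.IsZero X i z ↔ A'.IsZero X i z)

/-- The `p`-adic Abel-Jacobi map is injective on the algebraically trivial cycles of dimension `r` on
all varieties. -/
def InjectiveOnAlgTrivial {H : WeilTheoryData.{u, v, w} C K} (A : AJData H) (r : ℕ) : Prop :=
  ∀ (X : 𝒱.Obj) (i : ℤ) (z : C.A X), i + r = X.dim → AlgTrivial H i z → A.IsZero X i z → z = 0

/-- For all varieties `Y` of dimension `2 r + 3`, the product of a homologically trivial divisor class
and a homologically trivial cycle class of dimension `r + 1` is zero. -/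
def ProductsVanish (H : WeilTheoryData.{u, v, w} C K) (r : ℕ) : Prop :=
  ∀ (Y : 𝒱.Obj) (D Γ : C.A Y), Y.dim = 2 * r + 3 → Hom0 H 1 D → Hom0 H (r + 2) Γ → D * Γ = 0

/-- Homologically trivial families of cycles of dimension `r` are constant: if
`Γ ∈ CH^i(T × X)`, `i = dim X - r`, is homologically trivial, then `Γ_* a = 0` for all zero-cycles
`a` of degree zero on `T`. -/
def FamiliesAreConstant (H : WeilTheoryData.{u, v, w} C K) (r : ℕ) : Prop :=
  ∀ (T X : 𝒱.Obj) (i : ℤ) (Γ : C.A (T.prod X)) (a : C.A T), i + r = X.dim → Hom0 H i Γ →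
    Hom0 H T.dim a → C.act Γ a = 0

/-- The `p`-adic Abel-Jacobi map is injective on the zero-cycles of degree zero on all varieties. -/
def InjectiveOnZeroCycles {H : WeilTheoryData.{u, v, w} C K} (A : AJData H) : Prop :=
  ∀ (X : 𝒱.Obj) (z : C.A X), Hom0 H X.dim z → A.IsZero X X.dim z → z = 0

end Pool.Agent.K4H39.AJ
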