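import Pool.Agent.K4H39.AJ.HodgeDefs
import Pool.Agent.K4H39.AJ.DimDefs

/-!
# Statements on the complex Abel-Jacobi map
-/

set_option autoImplicit false

open CategoryTheory AlgebraicGeometry

universe u v w

namespace Pool.Agent.K4H39.AJ

open Pool.Agent.H914 Pool.Agent.H914.VarClass Pool.Agent.H914.VarClass.Obj Pool.Agent.W492.BB
  Pool.Agent.W550.Corr Pool.Agent.TH133

variable {k : Type u} [Field k] {𝒱 : VarClass k} {C : TheoryData.{u, v, 0} 𝒱 ℚ}
  {H : WeilTheoryData.{u, v, 0} C ℚ} (A : HodgeAJ H)

/-- On algebraically trivial cycles, the kernel of the complex Abel-Jacobi map consists of the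
classes `Γ_* c` with `c` a zero-cycle of degree zero on a curve and `Γ` homologically trivial. -/
def HodgeAJ.KernelIsDoublyTrivial : Prop :=
  ∀ (X : 𝒱.Obj) (i : ℤ) (z : C.A X), AlgTrivial H i z → (A.IsZero X i z ↔ DoublyTrivial H i z)

/-- The complex Abel-Jacobi map is injective (up to torsion) on the algebraically trivial cycles of
dimension `r` on all varieties. -/
def HodgeAJ.InjectiveOnAlgTrivial (r : ℕ) : Prop :=
  ∀ (X : 𝒱.Obj) (i : ℤ) (z : C.A X), i + r = X.dim → AlgTrivial H i z → A.IsZero X i z → z = 0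

/-- The complex Abel-Jacobi map is injective (up to torsion) on the zero-cycles of degree zero on all
varieties. -/
def HodgeAJ.InjectiveOnZeroCycles : Prop :=
  ∀ (X : 𝒱.Obj) (z : C.A X), Hom0 H X.dim z → A.IsZero X X.dim z → z = 0

end Pool.Agent.K4H39.AJ
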