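import Pool.Agent.K4H39.AJ.GDefs
import Pool.Agent.K4H39.AJ.Hodge
import Pool.Agent.K4H39.AJ.Dim

/-!
# The equivalences for the complex Abel-Jacobi map
-/

set_option autoImplicit false

open CategoryTheory AlgebraicGeometry

universe u v w w'

namespace Pool.Agent.K4H39.AJ

open Pool.Agent.H914 Pool.Agent.H914.VarClass Pool.Agent.H914.VarClass.Obj Pool.Agent.W492.BB
  Pool.Agent.W550.Corr Pool.Agent.TH133

section same

variable {k : Type u} [Field k] {𝒱 : VarClass k} {C : TheoryData.{u, v, 0} 𝒱 ℚ} {K : Type w}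
  [Field K] [hC : IsChowProj C] {H : WeilTheoryData.{u, v, w} C K} [hH : IsWeilProj H]
  {K' : Type w'} [Field K'] {H' : WeilTheoryData.{u, v, w'} C K'} [hH' : IsWeilProj H']
  {N N' : ∀ X : 𝒱.Obj, ℤ → C.A X → Prop}

include hC hH hH'

/-- Two Abel-Jacobi maps with the same homological equivalence have the same kernel on algebraically
trivial cycles. -/
theorem same_kernel (hN : IsKernel H N) (hP : CurveProperties H) (hN' : IsKernel H' N')
    (hP' : CurveProperties H') (hcl : SameHomEquiv H H') {X : 𝒱.Obj} {i : ℤ} {z : C.A X}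
    (hz : AlgTrivial H i z) : N X i z ↔ N' X i z := by
  have hhom : ∀ {X : 𝒱.Obj} {i : ℤ} {z : C.A X}, Hom0 H i z ↔ Hom0 H' i z := by
    intro X i z
    exact and_congr Iff.rfl (hcl X z)
  have hz' : AlgTrivial H' i z := by
    obtain ⟨T, Γ, c, hT, hc, hΓ, rfl⟩ := hz
    exact ⟨T, Γ, c, hT, hhom.1 hc, hΓ, rfl⟩
  rw [kernel_iff hN hP hz, kernel_iff hN' hP' hz']
  constructor
  · rintro ⟨T, Γ, c, hT, hc, hΓ, rfl⟩
    exact ⟨T, Γ, c, hT, hhom.1 hc, hhom.1 hΓ, rfl⟩
  · rintro ⟨T, Γ, c, hT, hc, hΓ, rfl⟩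
    exact ⟨T, Γ, c, hT, hhom.2 hc, hhom.2 hΓ, rfl⟩

end same

/-- The short form of the definitions. -/
theorem AJData.IsTheory.isAJ {k : Type u} [Field k] {𝒱 : VarClass k}
    {C : TheoryData.{u, v, 0} 𝒱 ℚ} {K : Type w} [Field K] {H : WeilTheoryData.{u, v, w} C K}
    {A : AJData H} (h : A.IsTheory) : A.IsAJ where
  isRep := ⟨⟨fun X i => (h.rep X i).one, fun X i => (h.rep X i).mul,
    fun X i m g a ha => (h.rep X i).mem g m a ha⟩, h.equivariant,
    fun X i U hU hs v hv hg => (h.rep X i).pure U hU hs v hv hg⟩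
  isCocycle := ⟨fun X i z hz => (h.cocycle X i z hz).1, fun X i z hz => (h.cocycle X i z hz).2,
    h.add⟩
  act := h.act
  divisor := h.divisor

variable {k : Type u} [Field k] {𝒱 : VarClass k} {C : TheoryData.{u, v, 0} 𝒱 ℚ}
  [hC : IsChowProj C] {H : WeilTheoryData.{u, v, 0} C ℚ} [hH : IsWeilProj H]

include hC hH

theorem main_tfaeH {A : HodgeAJ H} (hA : A.IsAJ) (hP : CurveProperties H)
    (hL : HyperplaneSections H) (r : ℕ) :
    List.TFAE [A.InjectiveOnAlgTrivial r, ProductsVanish H r, FamiliesAreConstant H r] := by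
  have h1 := injAlg_iff' hA.isKernel hP r
  have h2 := (doubly_iff_products hP r).trans (products_iff hL r)
  have h3 := doubly_iff_families hP r
  tfae_have 1 ↔ 2 := h1.trans h2
  tfae_have 2 ↔ 3 := h2.symm.trans h3
  tfae_finish

theorem zeroCycles_iffH {A : HodgeAJ H} (hP : CurveProperties H) :
    A.InjectiveOnZeroCycles ↔ A.InjectiveOnAlgTrivial 0 := by
  constructor
  · intro h X i z hi hz hNz
    have hi' : i = X.dim := by rw [← hi]; push_cast; ring
    subst hi'
    obtain ⟨T, Γ, c, hT, hc, hΓ, rfl⟩ := hz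
    have hdim : (T.dim : ℤ) = 1 := by exact_mod_cast hT
    refine h X _ ⟨?_, ?_⟩ hNz
    · have := act_mem' C (e := X.dim - 1) (i := 1) (Γ := Γ) (by
        rw [hdim, show (1 : ℤ) + (X.dim - 1) = X.dim by ring]; exact hΓ) hc.1
      rwa [show (1 : ℤ) + (X.dim - 1) = X.dim by ring] at this
    · rw [cl_act, hc.2, TheoryData.act_map_zero]
  · intro h X z hz hNz
    exact h X X.dim z (by push_cast; ring) (hP.zeroCycle X z hz) hNz

end Pool.Agent.K4H39.AJ
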