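import Pool.Agent.K4H39.AJ.DimDefsH

/-!
# The p-adic Abel-Jacobi maps: a short form of the definitions
-/

set_option autoImplicit false

open CategoryTheory AlgebraicGeometry

universe u v w

namespace Pool.Agent.K4H39.AJ

section rep

variable {G : Type u} [Group G] {K : Type w} [Field K] {V : Type v} [AddCommGroup V] [Module K V]

/-- The function `x : G → V` is the coboundary of a vector of `W`. -/
def IsBdry (ρ : G → V →ₗ[K] V) (W : Submodule K V) (x : G → V) : Prop :=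
  ∃ v ∈ W, ∀ g, x g = ρ g v - v

/-- The function `x` is a cocycle with values in `W`. -/
def IsCoc (ρ : G → V →ₗ[K] V) (W : Submodule K V) (x : G → V) : Prop :=
  (∀ g, x g ∈ W) ∧ ∀ g h, x (g * h) = x g + ρ g (x h)

/-- The group `G` acts on `V`, preserving the subspaces `gr m`, and no quotient of the representation
`W = gr n` has nonzero invariants. -/
structure IsPureRep (ρ : G → V →ₗ[K] V) (gr : ℤ → Submodule K V) (n : ℤ) : Prop where
  one : ∀ a, ρ 1 a = a
  mul : ∀ g h a, ρ (g * h) a = ρ g (ρ h a)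
  mem : ∀ g m, ∀ a ∈ gr m, ρ g a ∈ gr m
  pure : ∀ U ≤ gr n, (∀ g, ∀ a ∈ U, ρ g a ∈ U) → ∀ v ∈ gr n, (∀ g, ρ g v - v ∈ U) → v ∈ U

end rep

open Pool.Agent.H914 Pool.Agent.H914.VarClass Pool.Agent.H914.VarClass.Obj Pool.Agent.W492.BB
  Pool.Agent.W550.Corr Pool.Agent.TH133

variable {k : Type u} [Field k] {𝒱 : VarClass k} {C : TheoryData.{u, v, 0} 𝒱 ℚ} {K : Type w}
  [Field K] {H : WeilTheoryData.{u, v, w} C K} (A : AJData H)

/-- The function `x` from the Galois group to `H^(2i-1)(X)(i)` is a coboundary. -/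
def AJData.Bd (X : 𝒱.Obj) (i : ℤ) (x : Gal k → H.A X) : Prop :=
  IsBdry (A.ρ X i) (H.gr X (2 * i - 1)) x

/-- The properties of the `p`-adic Abel-Jacobi maps: the Galois representations `H^(2i-1)(X)(i)`
commute with correspondences and no quotient of them has nonzero invariants (the weight is `-1`);
`aj X i z` is a cocycle with values in `H^(2i-1)(X)(i)`, its class is additive in `z` and compatible
with correspondences, and the map is injective on divisors. -/
structure AJData.IsTheory : Prop where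
  rep : ∀ (X : 𝒱.Obj) (i : ℤ), IsPureRep (A.ρ X i) (H.gr X) (2 * i - 1)
  equivariant : ∀ (X Y : 𝒱.Obj) (i j : ℤ) (Γ : C.A (X.prod Y)), C.Deg (X.dim + (j - i)) Γ →
    ∀ (g : Gal k) (a : H.A X), on H Γ (A.ρ X i g a) = A.ρ Y j g (on H Γ a)
  cocycle : ∀ (X : 𝒱.Obj) (i : ℤ) (z : C.A X), Hom0 H i z →
    IsCoc (A.ρ X i) (H.gr X (2 * i - 1)) (A.aj X i z)
  add : ∀ (X : 𝒱.Obj) (i : ℤ) (z w : C.A X), Hom0 H i z → Hom0 H i w →
    A.Bd X i (fun g => A.aj X i (z + w) g - (A.aj X i z g + A.aj X i w g))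
  act : ∀ (X Y : 𝒱.Obj) (i j : ℤ) (Γ : C.A (X.prod Y)) (z : C.A X),
    C.Deg (X.dim + (j - i)) Γ → Hom0 H i z →
    A.Bd Y j (fun g => A.aj Y j (C.act Γ z) g - on H Γ (A.aj X i z g))
  divisor : ∀ (X : 𝒱.Obj) (D : C.A X), Hom0 H 1 D → A.Bd X 1 (A.aj X 1 D) → D = 0

/-- On algebraically trivial cycles, the kernels of the complex Abel-Jacobi map `A'` and the `p`-adic
Abel-Jacobi map `A` are the same. -/
def HodgeAJ.SameKernelP {H' : WeilTheoryData.{u, v, 0} C ℚ} (A' : HodgeAJ H') (A : AJData H) :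
    Prop :=
  ∀ (X : 𝒱.Obj) (i : ℤ) (z : C.A X), AlgTrivial H' i z →
    (A'.IsZero X i z ↔ A.Bd X i (A.aj X i z))

end Pool.Agent.K4H39.AJ
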