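import Pool.Agent.K4H39.AJ.GroupDefs
import Pool.Agent.K4H39.AJ.Dim

/-!
# Abelian varieties
-/

set_option autoImplicit false

open CategoryTheory AlgebraicGeometry

universe u v w

namespace Pool.Agent.K4H39.AJ

open Pool.Agent.H914 Pool.Agent.H914.VarClass Pool.Agent.H914.VarClass.Obj Pool.Agent.W492.BB
  Pool.Agent.W550.Corr Pool.Agent.TH133

variable {k : Type u} [Field k] {𝒱 : VarClass k}

section prod

variable {P : 𝒱.Obj} {hP : Limits.IsTerminal P} {A B X Y : 𝒱.Obj}

lemma comp_cst (f : X ⟶ Y) (a : P ⟶ A) : f ≫ cst hP Y a = cst hP X a := by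
  rw [cst, cst, ← Category.assoc]
  congr 1
  exact hP.hom_ext _ _

lemma cst_comp (a : P ⟶ A) (f : A ⟶ B) : cst hP X a ≫ f = cst hP X (a ≫ f) := by
  rw [cst, cst, Category.assoc]

/-- Associativity for points. -/
lemma GroupLaw.assoc_el (G : GroupLaw hP A) (x y z : X ⟶ A) :
    Obj.lift (Obj.lift x y ≫ G.add) z ≫ G.add = Obj.lift x (Obj.lift y z ≫ G.add) ≫ G.add := by
  have h := congrArg (fun f => Obj.lift (Obj.lift x y) z ≫ f) G.assoc
  simp only [← Category.assoc] at h
  refine Eq.trans ?_ (h.trans ?_)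
  · congr 1
    apply prod_ext <;> simp [W492.BB.prodMap]
  · congr 1
    apply prod_ext
    · simp [W492.BB.prodMap, aI]
    · simp only [Category.assoc, Obj.lift_snd, Obj.lift_fst, W492.BB.prodMap]
      simp only [← Category.assoc]
      congr 1
      apply prod_ext <;> simp [aI]

lemma assoc_of_el (add : A.prod A ⟶ A)
    (h : ∀ (X : 𝒱.Obj) (x y z : X ⟶ A), Obj.lift (Obj.lift x y ≫ add) z ≫ add =
      Obj.lift x (Obj.lift y z ≫ add) ≫ add) :
    W492.BB.prodMap add (𝟙 A) ≫ add = aI A A A ≫ W492.BB.prodMap (𝟙 A) add ≫ add := by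
  have h1 := h _ (fst (A.prod A) A ≫ fst A A) (fst (A.prod A) A ≫ snd A A) (snd (A.prod A) A)
  have e1 : Obj.lift (fst (A.prod A) A ≫ fst A A) (fst (A.prod A) A ≫ snd A A) =
      fst (A.prod A) A := by
    apply prod_ext <;> simp
  rw [e1] at h1
  have e2 : Obj.lift (fst (A.prod A) A ≫ add) (snd (A.prod A) A) =
      W492.BB.prodMap add (𝟙 A) := by
    apply prod_ext <;> simp [W492.BB.prodMap]
  rw [e2] at h1
  have e3 : Obj.lift (fst (A.prod A) A ≫ fst A A)
      (Obj.lift (fst (A.prod A) A ≫ snd A A) (snd (A.prod A) A) ≫ add) =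
      aI A A A ≫ W492.BB.prodMap (𝟙 A) add := by
    apply prod_ext
    · simp [W492.BB.prodMap, aI]
    · rw [Obj.lift_snd, Category.assoc, W492.BB.prodMap_snd, ← Category.assoc, aI, Obj.lift_snd]
  rw [e3, Category.assoc] at h1
  exact h1

/-- The addition on a product. -/
noncomputable def addProd (f : A.prod A ⟶ A) (g : B.prod B ⟶ B) :
    (A.prod B).prod (A.prod B) ⟶ A.prod B :=
  Obj.lift (W492.BB.prodMap (fst A B) (fst A B) ≫ f) (W492.BB.prodMap (snd A B) (snd A B) ≫ g)

lemma lift_addProd (f : A.prod A ⟶ A) (g : B.prod B ⟶ B) (x y : X ⟶ A.prod B) :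
    Obj.lift x y ≫ addProd f g = Obj.lift (Obj.lift (x ≫ fst A B) (y ≫ fst A B) ≫ f)
      (Obj.lift (x ≫ snd A B) (y ≫ snd A B) ≫ g) := by
  have e1 : Obj.lift x y ≫ W492.BB.prodMap (fst A B) (fst A B) =
      Obj.lift (x ≫ fst A B) (y ≫ fst A B) := by
    apply prod_ext
    · rw [Category.assoc, W492.BB.prodMap_fst, ← Category.assoc, Obj.lift_fst, Obj.lift_fst]
    · rw [Category.assoc, W492.BB.prodMap_snd, ← Category.assoc, Obj.lift_snd, Obj.lift_snd]
  have e2 : Obj.lift x y ≫ W492.BB.prodMap (snd A B) (snd A B) =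
      Obj.lift (x ≫ snd A B) (y ≫ snd A B) := by
    apply prod_ext
    · rw [Category.assoc, W492.BB.prodMap_fst, ← Category.assoc, Obj.lift_fst, Obj.lift_fst]
    · rw [Category.assoc, W492.BB.prodMap_snd, ← Category.assoc, Obj.lift_snd, Obj.lift_snd]
  rw [addProd, comp_lift, ← Category.assoc, e1, ← Category.assoc, e2]

lemma GroupLaw.zero_add_el (G : GroupLaw hP A) (x : X ⟶ A) :
    Obj.lift (cst hP X G.zero) x ≫ G.add = x := by
  have h := congrArg (fun f => x ≫ f) G.zero_add
  simp only [← Category.assoc, comp_lift, comp_cst, Category.comp_id] at h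
  exact h

lemma GroupLaw.add_zero_el (G : GroupLaw hP A) (x : X ⟶ A) :
    Obj.lift x (cst hP X G.zero) ≫ G.add = x := by
  have h := congrArg (fun f => x ≫ f) G.add_zero
  simp only [← Category.assoc, comp_lift, comp_cst, Category.comp_id] at h
  exact h

lemma GroupLaw.neg_add_el (G : GroupLaw hP A) (x : X ⟶ A) :
    Obj.lift (x ≫ G.neg) x ≫ G.add = cst hP X G.zero := by
  have h := congrArg (fun f => x ≫ f) G.neg_add
  simp only [← Category.assoc, comp_lift, comp_cst, Category.comp_id] at h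
  exact h

/-- The product of two group varieties. -/
noncomputable def GroupLaw.prod (G : GroupLaw hP A) (G' : GroupLaw hP B) :
    GroupLaw hP (A.prod B) where
  add := addProd G.add G'.add
  zero := Obj.lift G.zero G'.zero
  neg := W492.BB.prodMap G.neg G'.neg
  zero_add := by
    rw [lift_addProd, cst_comp, cst_comp, Obj.lift_fst, Obj.lift_snd, Category.id_comp,
      Category.id_comp, G.zero_add_el, G'.zero_add_el, lift_eta]
  add_zero := by
    rw [lift_addProd, cst_comp, cst_comp, Obj.lift_fst, Obj.lift_snd, Category.id_comp,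
      Category.id_comp, G.add_zero_el, G'.add_zero_el, lift_eta]
  neg_add := by
    rw [lift_addProd, W492.BB.prodMap_fst, W492.BB.prodMap_snd, Category.id_comp,
      Category.id_comp, G.neg_add_el, G'.neg_add_el]
    apply prod_ext
    · rw [Obj.lift_fst, cst_comp, Obj.lift_fst]
    · rw [Obj.lift_snd, cst_comp, Obj.lift_snd]
  assoc := by
    apply assoc_of_el
    intro X x y z
    rw [lift_addProd, lift_addProd, lift_addProd, lift_addProd, Obj.lift_fst, Obj.lift_snd,
      Obj.lift_fst, Obj.lift_snd, G.assoc_el, G'.assoc_el]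

end prod

end Pool.Agent.K4H39.AJ
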