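import Pool.Agent.K4H39.AJ.Defs

/-!
# Abelian varieties: definitions
-/

set_option autoImplicit false

open CategoryTheory AlgebraicGeometry

universe u v w

namespace Pool.Agent.K4H39.AJ

open Pool.Agent.H914 Pool.Agent.H914.VarClass Pool.Agent.H914.VarClass.Obj Pool.Agent.W492.BB
  Pool.Agent.W550.Corr Pool.Agent.TH133

variable {k : Type u} [Field k] {𝒱 : VarClass k}

/-- The unique morphism to the point `P` (a terminal object), followed by the point `a`. -/
def cst {P : 𝒱.Obj} (hP : Limits.IsTerminal P) (X : 𝒱.Obj) {A : 𝒱.Obj} (a : P ⟶ A) : X ⟶ A :=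
  hP.from X ≫ a

/-- A group law on the variety `A`; a smooth proper geometrically irreducible variety with a group
law is an abelian variety. -/
structure GroupLaw {P : 𝒱.Obj} (hP : Limits.IsTerminal P) (A : 𝒱.Obj) where
  /-- the addition -/
  add : A.prod A ⟶ A
  /-- the origin -/
  zero : P ⟶ A
  /-- the inverse -/
  neg : A ⟶ A
  zero_add : Obj.lift (cst hP A zero) (𝟙 A) ≫ add = 𝟙 A
  add_zero : Obj.lift (𝟙 A) (cst hP A zero) ≫ add = 𝟙 A
  neg_add : Obj.lift neg (𝟙 A) ≫ add = cst hP A zero
  assoc : W492.BB.prodMap add (𝟙 A) ≫ add = aI A A A ≫ W492.BB.prodMap (𝟙 A) add ≫ add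

/-- The translation by the rational point `a`. -/
noncomputable def GroupLaw.tr {P : 𝒱.Obj} {hP : Limits.IsTerminal P} {A : 𝒱.Obj}
    (G : GroupLaw hP A) (a : P ⟶ A) : A ⟶ A :=
  Obj.lift (cst hP A a) (𝟙 A) ≫ G.add

variable {C : TheoryData.{u, v, 0} 𝒱 ℚ} {K : Type w} [Field K]

/-- The known properties of abelian varieties which are used: a zero-cycle `c` of degree zero on a
curve `T` is (up to a rational factor) the pull-back of a homologically trivial divisor class on an
abelian variety, the Jacobian; and the homologically trivial divisor classes on an abelian variety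
`A` are the classes `τ_a^* L - L`, where `a` is a rational point and `L` a divisor class, with
rational coefficients. -/
structure AbelianProperties (H : WeilTheoryData.{u, v, w} C K) {P : 𝒱.Obj}
    (hP : Limits.IsTerminal P) : Prop where
  jacobian : ∀ (T : 𝒱.Obj) (c : C.A T), T.dim = 1 → Hom0 H 1 c →
    ∃ (J : 𝒱.Obj) (_ : GroupLaw hP J) (θ : T ⟶ J) (D : C.A J), Hom0 H 1 D ∧ C.pull θ D = c
  divisor : ∀ (A : 𝒱.Obj) (G : GroupLaw hP A) (D : C.A A), Hom0 H 1 D →
    ∃ (a : P ⟶ A) (L : C.A A), C.Deg 1 L ∧ C.pull (G.tr a) L - L = D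

/-- The `p`-adic Abel-Jacobi map is injective on the algebraically trivial cycles of dimension `r` on
all abelian varieties. -/
def InjectiveOnAbelian {P : 𝒱.Obj} (hP : Limits.IsTerminal P) {H : WeilTheoryData.{u, v, w} C K}
    (M : AJData H) (r : ℕ) : Prop :=
  ∀ (A : 𝒱.Obj) (_ : GroupLaw hP A) (i : ℤ) (z : C.A A), i + r = A.dim → AlgTrivial H i z →
    M.IsZero A i z → z = 0

/-- For all abelian varieties `A`, the product of a homologically trivial divisor class and a
homologically trivial cycle class of dimension `r + 1` on `A` is zero. -/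
def ProductsVanishOnAbelian {P : 𝒱.Obj} (hP : Limits.IsTerminal P)
    (H : WeilTheoryData.{u, v, w} C K) (r : ℕ) : Prop :=
  ∀ (A : 𝒱.Obj) (_ : GroupLaw hP A) (i : ℤ) (D Γ : C.A A), i + r + 1 = A.dim → Hom0 H 1 D →
    Hom0 H i Γ → D * Γ = 0

/-- For all abelian varieties `A`, the homologically trivial cycle classes of dimension `r` on `A` are
invariant under translations by rational points. -/
def TranslationInvariant {P : 𝒱.Obj} (hP : Limits.IsTerminal P)
    (H : WeilTheoryData.{u, v, w} C K) (r : ℕ) : Prop :=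
  ∀ (A : 𝒱.Obj) (G : GroupLaw hP A) (i : ℤ) (z : C.A A), i + r = A.dim → Hom0 H i z →
    ∀ a : P ⟶ A, C.pull (G.tr a) z = z

end Pool.Agent.K4H39.AJ
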