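import Pool.Agent.K4H39.AJ.Defs

/-!
# The kernel of the Abel-Jacobi map on algebraically trivial cycles
-/

set_option autoImplicit false

open CategoryTheory AlgebraicGeometry

universe u v w

namespace Pool.Agent.K4H39.AJ

open Pool.Agent.H914 Pool.Agent.H914.VarClass Pool.Agent.H914.VarClass.Obj Pool.Agent.W492.BB
  Pool.Agent.W550.Corr Pool.Agent.TH133

variable {k : Type u} [Field k] {𝒱 : VarClass k} {C : TheoryData.{u, v, 0} 𝒱 ℚ} {K : Type w}
  [Field K]

/-- The properties of the kernel of an Abel-Jacobi map which are used. -/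
structure IsKernel (H : WeilTheoryData.{u, v, w} C K) (N : ∀ X : 𝒱.Obj, ℤ → C.A X → Prop) :
    Prop where
  hom : ∀ {X Y : 𝒱.Obj} {i j : ℤ} {Γ : C.A (X.prod Y)} {z : C.A X},
    C.Deg (X.dim + (j - i)) Γ → H.cl Γ = 0 → Hom0 H i z → N Y j (C.act Γ z)
  divisor : ∀ {X : 𝒱.Obj} {D : C.A X}, Hom0 H 1 D → N X 1 D → D = 0
  inj : ∀ {X Y : 𝒱.Obj} {i j : ℤ} {Γ : C.A (X.prod Y)} {e : C.A (X.prod X)} {z : C.A X},
    C.Deg (X.dim + (j - i)) Γ → C.Deg X.dim e → Hom0 H i z →
    (∀ a, H.Deg (2 * i - 1) a → H.act (H.cl Γ) a = 0 → H.act (H.cl e) a = a) →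
    N Y j (C.act Γ z) → N X i (z - C.act e z)

section

variable [hC : IsChowProj C] {H : WeilTheoryData.{u, v, w} C K} [hH : IsWeilProj H]
  {N : ∀ X : 𝒱.Obj, ℤ → C.A X → Prop} {X Y Z : 𝒱.Obj}

include hC hH

lemma cl_comp_zero_left {Γ : C.A (X.prod Y)} {Δ : C.A (Y.prod Z)} (h : H.cl Γ = 0) :
    H.cl (C.comp Γ Δ) = 0 := by
  apply hom_zero_of_act H
  intro a
  have h1 := actH_comp H Γ Δ a
  rw [h1, h]
  rw [TheoryData.act_zero, TheoryData.act_map_zero]

lemma cl_comp_zero_right {Γ : C.A (X.prod Y)} {Δ : C.A (Y.prod Z)} (h : H.cl Δ = 0) :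
    H.cl (C.comp Γ Δ) = 0 := by
  apply hom_zero_of_act H
  intro a
  have h1 := actH_comp H Γ Δ a
  rw [h1, h, TheoryData.act_zero]

/-- The kernel of the Abel-Jacobi map on algebraically trivial cycles. -/
theorem kernel_iff (hN : IsKernel H N) (hP : CurveProperties H) {i : ℤ} {z : C.A X}
    (hz : AlgTrivial H i z) : N X i z ↔ DoublyTrivial H i z := by
  constructor
  · intro h
    obtain ⟨T, Γ, c, hT, hc, hΓ, rfl⟩ := hz
    obtain ⟨e, he, he23, he1⟩ := hP.kernel T X i Γ hT hΓ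
    have he2 : ∀ a : H.A T, H.Deg 1 a → H.act (H.cl Γ) (H.act (H.cl e) a) = 0 :=
      fun a ha => (he23 a ha).1
    have he3 : ∀ a : H.A T, H.Deg 1 a → H.act (H.cl Γ) a = 0 → H.act (H.cl e) a = a :=
      fun a ha => (he23 a ha).2
    have hdim : (T.dim : ℤ) = 1 := by exact_mod_cast hT
    have hdeg : C.Deg (T.dim + (i - 1)) Γ := by
      rw [hdim, show (1 : ℤ) + (i - 1) = i by ring]; exact hΓ
    have hdege : C.Deg T.dim e := by rw [hdim]; exact he
    have h1 : N T 1 (c - C.act e c) := hN.inj hdeg hdege hc (by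
      intro a ha hΓa
      exact he3 a ha hΓa) h
    have hec : Hom0 H 1 (c - C.act e c) := by
      refine ⟨Submodule.sub_mem _ hc.1 (act_mem0 C hdege hc.1), ?_⟩
      rw [map_sub, hc.2, cl_act, hc.2, TheoryData.act_map_zero, sub_zero]
    have h2 : c = C.act e c := sub_eq_zero.1 (hN.divisor hec h1)
    refine ⟨T, C.comp e Γ, c, hT, hc, ⟨?_, ?_⟩, ?_⟩
    · have := comp_mem C (e := 0) (e' := i - 1) (Γ := e) (Δ := Γ) (by rwa [add_zero]) hdeg
      rw [hdim, show (1 : ℤ) + (0 + (i - 1)) = i by ring] at this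
      exact this
    · apply hom_zero_of_act H
      have h3 : H.actL (H.cl (C.comp e Γ)) = 0 := by
        apply ext_gr H
        intro m a ha
        rw [TheoryData.actL_apply, LinearMap.zero_apply, actH_comp H e Γ a]
        by_cases hm : m = 1
        · subst hm
          exact he2 a ha
        · have h4 : H.act (H.cl e) a = 0 := he1 m a hm ha
          rw [h4, TheoryData.act_map_zero]
      exact fun a => LinearMap.congr_fun h3 a
    · rw [C.act_comp, ← h2]
  · rintro ⟨T, Γ, c, hT, hc, hΓ, rfl⟩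
    have hdim : (T.dim : ℤ) = 1 := by exact_mod_cast hT
    exact hN.hom (i := 1) (by rw [hdim, show (1 : ℤ) + (i - 1) = i by ring]; exact hΓ.1) hΓ.2 hc

omit hC hH in
lemma DoublyTrivial.algTrivial {i : ℤ} {z : C.A X} (h : DoublyTrivial H i z) :
    AlgTrivial H i z := by
  obtain ⟨T, Γ, c, hT, hc, hΓ, rfl⟩ := h
  exact ⟨T, Γ, c, hT, hc, hΓ.1, rfl⟩

/-- The Abel-Jacobi map is injective on algebraically trivial cycles. -/
def InjAlg (H : WeilTheoryData.{u, v, w} C K) (N : ∀ X : 𝒱.Obj, ℤ → C.A X → Prop) : Prop :=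
  ∀ (X : 𝒱.Obj) (i : ℤ) (z : C.A X), AlgTrivial H i z → N X i z → z = 0

omit hC hH in
/-- Homologically trivial correspondences from curves annihilate zero-cycles of degree zero. -/
def CurvesAnnihilate (H : WeilTheoryData.{u, v, w} C K) : Prop :=
  ∀ (X : 𝒱.Obj) (i : ℤ) (z : C.A X), DoublyTrivial H i z → z = 0

/-- The product of a homologically trivial divisor and a homologically trivial cycle is zero. -/
def DivisorsAnnihilate (H : WeilTheoryData.{u, v, w} C K) : Prop :=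
  ∀ (Y : 𝒱.Obj) (i : ℤ) (D Γ : C.A Y), Hom0 H 1 D → Hom0 H i Γ → D * Γ = 0

/-- Homologically trivial families of cycles are constant: if `Γ ∈ CH^i(T × X)` is homologically
trivial then `Γ_* a = 0` for the zero-cycles `a` of degree zero on `T`. -/
def FamiliesConstant (H : WeilTheoryData.{u, v, w} C K) : Prop :=
  ∀ (T X : 𝒱.Obj) (i : ℤ) (Γ : C.A (T.prod X)) (a : C.A T), Hom0 H i Γ → Hom0 H T.dim a →
    C.act Γ a = 0

theorem injAlg_iff (hN : IsKernel H N) (hP : CurveProperties H) :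
    InjAlg H N ↔ CurvesAnnihilate H := by
  constructor
  · intro h X i z hz
    exact h X i z hz.algTrivial ((kernel_iff hN hP hz.algTrivial).2 hz)
  · intro h X i z hz hNz
    exact h X i z ((kernel_iff hN hP hz).1 hNz)

theorem curves_iff_divisors (hP : CurveProperties H) :
    CurvesAnnihilate H ↔ DivisorsAnnihilate H := by
  constructor
  · intro h Y i D Γ hD hΓ
    obtain ⟨T, lam, c, hT, hc, hl, rfl⟩ := hP.divisor Y D hD
    apply h Y (1 + i)
    refine ⟨T, lam * C.pull (snd T Y) Γ, c, hT, hc,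
      ⟨C.mul_mem hl (C.pull_mem _ hΓ.1), ?_⟩, ?_⟩
    · rw [map_mul, H.cl_pull, hΓ.2, map_zero, mul_zero]
    · rw [TheoryData.act_apply, TheoryData.act_apply, ← C.proj_right, mul_assoc, mul_assoc,
        ch_comm C (C.pull (snd T Y) Γ)]
  · rintro h X i z ⟨T, Γ, c, hT, hc, hΓ, rfl⟩
    rw [TheoryData.act_apply, ch_comm C Γ, h (T.prod X) i (C.pull (fst T X) c) Γ
      ⟨C.pull_mem _ hc.1, by rw [H.cl_pull, hc.2, map_zero]⟩ hΓ, map_zero]

theorem curves_iff_families (hP : CurveProperties H) :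
    CurvesAnnihilate H ↔ FamiliesConstant H := by
  constructor
  · intro h T X i Γ a hΓ ha
    obtain ⟨T', α, c, hT', hc, hα, rfl⟩ := hP.zeroCycle T a ha
    have hdim : (T'.dim : ℤ) = 1 := by exact_mod_cast hT'
    apply h X i
    refine ⟨T', C.comp α Γ, c, hT', hc, ⟨?_, cl_comp_zero_right hΓ.2⟩, ?_⟩
    · have := comp_mem C (e := T.dim - 1) (e' := i - T.dim) (Γ := α) (Δ := Γ)
        (by rw [hdim, show (1 : ℤ) + (T.dim - 1) = T.dim by ring]; exact hα)
        (by rw [show (T.dim : ℤ) + (i - T.dim) = i by ring]; exact hΓ.1)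
      rw [hdim, show (1 : ℤ) + (T.dim - 1 + (i - T.dim)) = i by ring] at this
      exact this
    · rw [C.act_comp]
  · rintro h X i z ⟨T, Γ, c, hT, hc, hΓ, rfl⟩
    have hdim : (T.dim : ℤ) = 1 := by exact_mod_cast hT
    exact h T X i Γ c hΓ (by rw [hdim]; exact hc)

end

end Pool.Agent.K4H39.AJ
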