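import Pool.Agent.K4H39.AJ.MotDefs
import Pool.Agent.K4H39.AJ.Corr

/-!
# Correspondences on algebraically trivial cycles and on cohomology
-/

set_option autoImplicit false

open CategoryTheory AlgebraicGeometry

universe u v w

namespace Pool.Agent.K4H39.AJ

open Pool.Agent.H914 Pool.Agent.H914.VarClass Pool.Agent.H914.VarClass.Obj Pool.Agent.W492.BB
  Pool.Agent.W550.Corr Pool.Agent.TH133

variable {k : Type u} [Field k] {𝒱 : VarClass k} {C : TheoryData.{u, v, 0} 𝒱 ℚ} {K : Type w}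
  [Field K] [hC : IsChowProj C] {H : WeilTheoryData.{u, v, w} C K} [hH : IsWeilProj H]
  {N : ∀ X : 𝒱.Obj, ℤ → C.A X → Prop} {X Y : 𝒱.Obj}

include hC hH

lemma algTriv_hom0 {i : ℤ} {z : C.A X} (hz : AlgTrivial H i z) : Hom0 H i z := by
  obtain ⟨T, α, c, hT, hc, hα, rfl⟩ := hz
  have hdim : (T.dim : ℤ) = 1 := by exact_mod_cast hT
  exact hom0_act (by rw [hdim, show (1 : ℤ) + (i - 1) = i by ring]; exact hα) hc

omit hH in
lemma algTriv_add_sub {i : ℤ} {e : C.A (X.prod X)} (he : C.Deg X.dim e) {z : C.A X}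
    (hz : AlgTrivial H i z) : AlgTrivial H i (z - C.act e z) := by
  have hdeg : C.Deg (X.dim + (i - i)) (dg C X - e) := by
    rw [sub_self, add_zero]
    exact Submodule.sub_mem _ (dg_mem C X) he
  have h1 := algTriv_act (H := H) hdeg hz
  have e1 : C.act (dg C X - e) z = z - C.act e z := by
    rw [TheoryData.act_sub, act_dg]
  rwa [e1] at h1

lemma N_zero (hN : IsKernel H N) {i j : ℤ} (z : C.A X) (hz : AlgTrivial H i z) :
    N Y j (0 : C.A Y) := by
  have h2 := hN.hom (X := X) (Y := Y) (i := i) (j := j) (Γ := 0) (z := z)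
    (Submodule.zero_mem _) (map_zero _) (algTriv_hom0 hz)
  rwa [TheoryData.act_zero] at h2

theorem kernels (hN : IsKernel H N)
    (h : ∀ (X : 𝒱.Obj) (i : ℤ) (z : C.A X), AlgTrivial H i z → N X i z → z = 0) :
    KernelsAreCohomological H := by
  intro X Y i j Γ e hΓ he hker z hz hΓz
  have h1 : N Y j (C.act Γ z) := by
    rw [hΓz]
    exact N_zero hN z hz
  have h3 := hN.inj hΓ he (algTriv_hom0 hz) hker h1
  exact (sub_eq_zero.1 (h X i _ (algTriv_add_sub he hz) h3)).symm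

omit hC hH in
theorem injective_of (h : KernelsAreCohomological H) : InjectiveOnOddCohomologyIsInjective H := by
  intro X Y i j Γ hΓ hinj z hz hΓz
  have h1 := h X Y i j Γ 0 hΓ (Submodule.zero_mem _) (fun a ha hΓa => by
    rw [hinj a ha hΓa, on, TheoryData.act_map_zero]) z hz hΓz
  rw [TheoryData.act_zero] at h1
  exact h1.symm

/-- The kernel `N` of the Abel-Jacobi map is compatible with correspondences acting as zero on the
odd cohomology. -/
def ZeroKernel (H : WeilTheoryData.{u, v, w} C K) (N : ∀ X : 𝒱.Obj, ℤ → C.A X → Prop) : Prop :=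
  ∀ {X Y : 𝒱.Obj} {i j : ℤ} {Γ : C.A (X.prod Y)} {z : C.A X},
    C.Deg (X.dim + (j - i)) Γ → ZeroOn H (2 * i - 1) Γ → Hom0 H i z → N Y j (C.act Γ z)

theorem mot_tfae (hN : IsKernel H N) (hN0 : ZeroKernel H N) (hP : CurveProperties H) :
    List.TFAE [∀ (X : 𝒱.Obj) (i : ℤ) (z : C.A X), AlgTrivial H i z → N X i z → z = 0,
      HomTrivialActsAsZero H, ZeroOnOddCohomologyActsAsZero H] := by
  tfae_have 1 → 3 := by
    intro h X Y i j Γ hΓ hΓ0 z hz
    exact h Y j _ (algTriv_act hΓ hz) (hN0 hΓ hΓ0 (algTriv_hom0 hz))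
  tfae_have 3 → 2 := by
    intro h X Y i j Γ hΓ z hz
    refine h X Y i j Γ hΓ.1 (fun a _ => ?_) z hz
    rw [on, hΓ.2, TheoryData.act_zero]
  tfae_have 2 → 1 := by
    intro h X i z hz hNz
    obtain ⟨T, Γ, c, hT, hc, hΓ, rfl⟩ := (kernel_iff hN hP hz).1 hNz
    have hdim : (T.dim : ℤ) = 1 := by exact_mod_cast hT
    refine h T X 1 i Γ ⟨by rw [hdim, show (1 : ℤ) + (i - 1) = i by ring]; exact hΓ.1, hΓ.2⟩ c ?_
    have h1 := hP.zeroCycle T c (by rw [hdim]; exact hc)
    rwa [hdim] at h1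
  tfae_finish

omit hC hH in
theorem motives_of (h : ZeroOnOddCohomologyActsAsZero H) : MotivesWithoutOddCohomology H := by
  intro X e n he _ he0 z hz
  exact h X X n n e (by rw [sub_self, add_zero]; exact he) he0 z hz

omit hC hH in
theorem AJData.IsAJ.zeroKernel {A : AJData H} (hA : A.IsAJ) :
    ZeroKernel H (fun X i z => A.IsZero X i z) := by
  intro X Y i j Γ z hΓ hΓ0 hz
  have h1 := hA.act X Y i j Γ z hΓ hz
  refine (congrArg (A.IsBoundary Y j) (funext fun g => ?_)).mp h1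
  have h2 : on H Γ (A.aj X i z g) = 0 := hΓ0 _ (hA.isCocycle.mem X i z hz g)
  rw [h2, sub_zero]

end Pool.Agent.K4H39.AJ
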