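import Pool.Agent.K4H39.AJ.Defs

/-!
# Correspondences on algebraically trivial cycles and on cohomology: definitions
-/

set_option autoImplicit false

open CategoryTheory AlgebraicGeometry

universe u v w

namespace Pool.Agent.K4H39.AJ

open Pool.Agent.H914 Pool.Agent.H914.VarClass Pool.Agent.H914.VarClass.Obj Pool.Agent.W492.BB
  Pool.Agent.W550.Corr Pool.Agent.TH133

variable {k : Type u} [Field k] {𝒱 : VarClass k} {C : TheoryData.{u, v, 0} 𝒱 ℚ} {K : Type w}
  [Field K]

/-- The `p`-adic Abel-Jacobi map is injective on the algebraically trivial cycles on all varieties. -/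
def InjectiveOnAllAlgTrivial {H : WeilTheoryData.{u, v, w} C K} (A : AJData H) : Prop :=
  ∀ (X : 𝒱.Obj) (i : ℤ) (z : C.A X), AlgTrivial H i z → A.IsZero X i z → z = 0

/-- Homologically trivial correspondences act as zero on algebraically trivial cycles. -/
def HomTrivialActsAsZero (H : WeilTheoryData.{u, v, w} C K) : Prop :=
  ∀ (X Y : 𝒱.Obj) (i j : ℤ) (Γ : C.A (X.prod Y)), Hom0 H (X.dim + (j - i)) Γ →
    ∀ z : C.A X, AlgTrivial H i z → C.act Γ z = 0

/-- The correspondence `Γ` acts as zero on the cohomology group `H^m(X)`. -/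
def ZeroOn (H : WeilTheoryData.{u, v, w} C K) {X Y : 𝒱.Obj} (m : ℤ) (Γ : C.A (X.prod Y)) : Prop :=
  ∀ a : H.A X, H.Deg m a → on H Γ a = 0

/-- A correspondence from `X` to `Y` which acts as zero on `H^(2i-1)(X)` acts as zero on the
algebraically trivial cycle classes in `CH^i(X)`. -/
def ZeroOnOddCohomologyActsAsZero (H : WeilTheoryData.{u, v, w} C K) : Prop :=
  ∀ (X Y : 𝒱.Obj) (i j : ℤ) (Γ : C.A (X.prod Y)), C.Deg (X.dim + (j - i)) Γ →
    ZeroOn H (2 * i - 1) Γ → ∀ z : C.A X, AlgTrivial H i z → C.act Γ z = 0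

/-- If `Γ` is a correspondence from `X` to `Y` and the self-correspondence `e` of `X` is the identity
on the kernel of `Γ` in `H^(2i-1)(X)`, then `e` is the identity on the kernel of `Γ` in the
algebraically trivial cycle classes in `CH^i(X)`. -/
def KernelsAreCohomological (H : WeilTheoryData.{u, v, w} C K) : Prop :=
  ∀ (X Y : 𝒱.Obj) (i j : ℤ) (Γ : C.A (X.prod Y)) (e : C.A (X.prod X)),
    C.Deg (X.dim + (j - i)) Γ → C.Deg X.dim e →
    (∀ a : H.A X, H.Deg (2 * i - 1) a → on H Γ a = 0 → on H e a = a) →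
    ∀ z : C.A X, AlgTrivial H i z → C.act Γ z = 0 → C.act e z = z

/-- If the correspondence `Γ` is injective on `H^(2i-1)(X)` then it is injective on the algebraically
trivial cycle classes in `CH^i(X)`. -/
def InjectiveOnOddCohomologyIsInjective (H : WeilTheoryData.{u, v, w} C K) : Prop :=
  ∀ (X Y : 𝒱.Obj) (i j : ℤ) (Γ : C.A (X.prod Y)), C.Deg (X.dim + (j - i)) Γ →
    (∀ a : H.A X, H.Deg (2 * i - 1) a → on H Γ a = 0 → a = 0) →
    ∀ z : C.A X, AlgTrivial H i z → C.act Γ z = 0 → z = 0

/-- For the Chow motives `M = (X, e, n)` with `H^(2n-1)(M) = e H^(2n-1)(X) = 0`, the group `e CH^n(X)`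
has no algebraically trivial classes `e z`, `z` algebraically trivial in `CH^n(X)`, except zero. -/
def MotivesWithoutOddCohomology (H : WeilTheoryData.{u, v, w} C K) : Prop :=
  ∀ (X : 𝒱.Obj) (e : C.A (X.prod X)) (n : ℤ), C.Deg X.dim e → C.comp e e = e →
    ZeroOn H (2 * n - 1) e → ∀ z : C.A X, AlgTrivial H n z → C.act e z = 0

end Pool.Agent.K4H39.AJ
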