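import Pool.Agent.K4H39.AJ.Defs

/-!
# Cycles of small dimension and rational varieties: definitions
-/

set_option autoImplicit false

open CategoryTheory AlgebraicGeometry

universe u v w

namespace Pool.Agent.K4H39.AJ

open Pool.Agent.H914 Pool.Agent.H914.VarClass Pool.Agent.H914.VarClass.Obj Pool.Agent.W492.BB
  Pool.Agent.W550.Corr Pool.Agent.TH133

variable {k : Type u} [Field k] {𝒱 : VarClass k} {C : TheoryData.{u, v, 0} 𝒱 ℚ} {K : Type w}
  [Field K]

/-- The known properties of hyperplane sections which are used: if `dim X > 2 s + 2` then each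
homologically trivial cycle class of dimension `s` on `X` is the direct image under a morphism `f` of
a homologically trivial cycle class on a variety `Y` of dimension `dim X - 1`, where `f_*` is
injective on the cohomology group `H^(2i-3)(Y)`, `i = dim X - s` (a smooth hypersurface section
through the cycle, by Kleiman's smoothing of cycles, Bertini's theorem and the Lefschetz hyperplane
theorem); and the class of varieties contains varieties of all dimensions (projective spaces). -/
structure LefschetzSections (H : WeilTheoryData.{u, v, w} C K) : Prop where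
  section_ : ∀ (X : 𝒱.Obj) (s : ℕ) (i : ℤ) (z : C.A X), 2 * s + 2 < X.dim → i + s = X.dim →
    Hom0 H i z → ∃ (Y : 𝒱.Obj) (f : Y ⟶ X) (w : C.A Y), Y.dim + 1 = X.dim ∧
      Hom0 H (i - 1) w ∧ C.push f w = z ∧
      ∀ a : H.A Y, H.Deg (2 * (i - 1) - 1) a → H.down f a = 0 → a = 0
  exists_dim : ∀ n : ℕ, ∃ P : 𝒱.Obj, P.dim = n

/-- The known properties of the class `R` of rational varieties which are used.

* `embed`: a variety `X` of dimension `d ≥ 2` is birational to the centre of a blow-up of a blow-up
  of the projective space of dimension `2 d` in points (a general projection of `X` is an immersion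
  with improper double points), and the blow-up formula gives correspondences `Γ`, `Δ` between `X`
  and the rational variety `B` of dimension `2 d`, raising and lowering the dimension of cycles by
  one, such that `Δ_* Γ_*` is the identity.
* `factor`: a homologically trivial cycle class `z` of dimension `j` on a rational variety is zero if
  `Γ_* z = 0` for all correspondences `Γ` to all varieties which lower the dimension of cycles (by
  the weak factorization theorem and the blow-up formula). -/
structure RationalProperties (H : WeilTheoryData.{u, v, w} C K) (R : Set 𝒱.Obj) : Prop where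
  embed : ∀ X : 𝒱.Obj, 2 ≤ X.dim → ∃ B ∈ R, B.dim = 2 * X.dim ∧
    ∃ (Γ : C.A (X.prod B)) (Δ : C.A (B.prod X)), C.Deg (X.dim + (X.dim - 1)) Γ ∧
      C.Deg (B.dim + (1 - X.dim)) Δ ∧ ∀ z : C.A X, C.act Δ (C.act Γ z) = z
  factor : ∀ B ∈ R, ∀ (i j : ℤ) (z : C.A B), i + j = B.dim → Hom0 H i z →
    (∀ (X : 𝒱.Obj) (i' j' : ℤ) (Γ : C.A (B.prod X)), j' < j → i' + j' = X.dim →
      C.Deg (B.dim + (i' - i)) Γ → C.act Γ z = 0) → z = 0

/-- The `p`-adic Abel-Jacobi map is injective on the homologically trivial cycles of dimension `r` on
the varieties in the set `S`. -/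
def InjectiveOn {H : WeilTheoryData.{u, v, w} C K} (A : AJData H) (S : Set 𝒱.Obj) (r : ℕ) : Prop :=
  ∀ X ∈ S, ∀ (i : ℤ) (z : C.A X), i + r = X.dim → Hom0 H i z → A.IsZero X i z → z = 0

/-- The varieties of dimension `n` in the set `R`. -/
def OfDim (R : Set 𝒱.Obj) (n : ℕ) : Set 𝒱.Obj := {X | X ∈ R ∧ X.dim = n}

end Pool.Agent.K4H39.AJ
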