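import Pool.Agent.K4H39.AJ.RatHDefs
import Pool.Agent.K4H39.AJ.Rat
import Pool.Agent.K4H39.AJ.Hodge

/-!
# The complex Abel-Jacobi map is functorial
-/

set_option autoImplicit false

open CategoryTheory AlgebraicGeometry TensorProduct

universe u v w

namespace Pool.Agent.K4H39.AJ

open Pool.Agent.H914 Pool.Agent.H914.VarClass Pool.Agent.H914.VarClass.Obj Pool.Agent.W492.BB
  Pool.Agent.W550.Corr Pool.Agent.TH133

variable {k : Type u} [Field k] {𝒱 : VarClass k} {C : TheoryData.{u, v, 0} 𝒱 ℚ}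
  [hC : IsChowProj C] {H : WeilTheoryData.{u, v, 0} C ℚ} [hH : IsWeilProj H]
  {A : HodgeAJ H} {X Y : 𝒱.Obj}

include hC hH

theorem HodgeAJ.IsAJ.isFunctorialKernel (hA : A.IsAJ) :
    IsFunctorialKernel H (fun X i z => A.IsZero X i z) := by
  intro X Y i j Γ z hΓ hz h
  obtain ⟨φ, hφ⟩ := exists_induced (H := H) hΓ
  set x : Cx (Odd H X i) := A.aj X i z with hx
  set y : Cx (Odd H Y j) := A.aj Y j (C.act Γ z) with hy
  have h1 : InFPlusRational (V := Odd H Y j) (A.F Y j) (y - φ.baseChange ℂ x) :=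
    hA.act X Y i j Γ φ z hφ hz
  have h2 : InFPlusRational (V := Odd H Y j) (A.F Y j) (φ.baseChange ℂ x) := by
    obtain ⟨f, hf, a, hfa⟩ : InFPlusRational (V := Odd H X i) (A.F X i) x := h
    refine ⟨φ.baseChange ℂ f, hA.preservesF X Y i j Γ φ hφ f hf, φ a, ?_⟩
    rw [hfa, map_add]
    congr 1
  have h3 := h1.add h2
  rw [sub_add_cancel] at h3
  exact h3

end Pool.Agent.K4H39.AJ
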