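import Pool.Agent.K4H39.AJ.RatDefs
import Pool.Agent.K4H39.AJ.HodgeDefs

/-!
# The complex Abel-Jacobi map on rational varieties: definitions
-/

set_option autoImplicit false

open CategoryTheory AlgebraicGeometry

universe u v w

namespace Pool.Agent.K4H39.AJ

open Pool.Agent.H914 Pool.Agent.H914.VarClass Pool.Agent.H914.VarClass.Obj Pool.Agent.W492.BB
  Pool.Agent.W550.Corr Pool.Agent.TH133

variable {k : Type u} [Field k] {𝒱 : VarClass k} {C : TheoryData.{u, v, 0} 𝒱 ℚ}

/-- The complex Abel-Jacobi map is injective (up to torsion) on the homologically trivial cycles of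
dimension `r` on the varieties in the set `S`. -/
def HodgeAJ.InjectiveOn {H : WeilTheoryData.{u, v, 0} C ℚ} (A : HodgeAJ H) (S : Set 𝒱.Obj)
    (r : ℕ) : Prop :=
  ∀ X ∈ S, ∀ (i : ℤ) (z : C.A X), i + r = X.dim → Hom0 H i z → A.IsZero X i z → z = 0

end Pool.Agent.K4H39.AJ
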